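import Pool.Agent.H48.M3.Nf
import Pool.Agent.H63.MA.ALem
import Pool.Agent.H57.SL.Dic

/-!
# M3, block 4: the ray class characters

`lg_cj`: `lg w (τ x) = 2 lg (τ w) x`. `ray`: for `(k, c) ≠ 0` the function `v ↦ k · q_v + ∑_{l ∈ q} c_l lg (w_l) (π_v / τ(π_v))` is given by a nontrivial ray class character of
`M` of modulus `M0 ∏_{w | l ∈ q} w` (`rayE`: `lg (w_l) (π_v / τ π_v) = LL (w_l) π_v + LL (τ w_l) π_v`).
-/

set_option autoImplicit false

open scoped NumberField Classical Pointwise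
open IsDedekindDomain H38.ML H63.MA

noncomputable section

namespace H48.M3

open H48.AQ

variable {K : IntermediateField ℚ QBar} [NumberField K] {M : IntermediateField K QBar}
  [NumberField M] {τ : Gal(M/K)} {ω : M}

private theorem p3 : Nat.Prime 3 := Nat.prime_three

theorem val_cj (w : Pl M) (y : M) (h : (tv τ w).valuation M y < 1) :
    w.valuation M (τ y) < 1 := by
  by_cases hy : y = 0
  · rw [hy, map_zero, map_zero]
    exact zero_lt_one
  · obtain ⟨u, hu⟩ : ∃ u : Mˣ, (u : M) = y := ⟨Units.mk0 y hy, rfl⟩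
    rw [← hu] at h ⊢
    have h1 := (ord_pos_iff (tv τ w) u).2 h
    rw [tv_ord'] at h1
    exact (ord_pos_iff w (cj τ u)).1 h1

theorem lg_cj (H : H38.WM.Om τ ω) (w : Pl M) (hw3 : ¬ Above 3 w) (hw3' : ¬ Above 3 (tv τ w))
    (x : Mˣ) (ho : ord (tv τ w) x = 0) :
    lg 3 ω w (cj τ x) = 2 * lg 3 ω (tv τ w) x := by
  have ho' : ord w (cj τ x) = 0 := by
    rw [← tv_ord']
    exact ho
  refine lg_unique p3 H.prim hw3 ho' ?_
  have h1 := lg_spec p3 H.prim hw3' ho
  have h2 := val_cj w _ h1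
  rw [map_sub, map_pow, map_pow, H.act, tv_nm, ← pow_mul] at h2
  have h3 : ω ^ (2 * lg 3 ω (tv τ w) x).val = ω ^ (2 * (lg 3 ω (tv τ w) x).val) := by
    generalize lg 3 ω (tv τ w) x = a
    have h4 : (2 * a).val % 3 = (2 * a.val) % 3 := by
      revert a
      decide
    rw [← Nat.mod_add_div (2 * a).val 3, ← Nat.mod_add_div (2 * a.val) 3, h4, pow_add, pow_add,
      pow_mul, pow_mul, H.prim.pow_eq_one, one_pow, one_pow]
  rw [h3]
  exact h2

/-- the primes of `M` over the primes of `q` -/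
def OQ (M : IntermediateField K QBar) [NumberField M] (q : Finset (Pl K)) : Finset (Pl M) :=
  q.biUnion fun l => (over_finite (L := M) l).toFinset

theorem mem_OQ (q : Finset (Pl K)) (w : Pl M) : w ∈ OQ M q ↔ ∃ l ∈ q, Over w l := by
  unfold OQ
  rw [Finset.mem_biUnion]
  refine exists_congr fun l => and_congr_right fun _ => ?_
  rw [Set.Finite.mem_toFinset]
  exact Iff.rfl

/-- `Gal(M/K)` is transitive on the primes over `l` -/
theorem geo_tr (H : H38.WM.Om τ ω) {w w' : Pl M} {l : Pl K} (hw : Over w l) (hw' : Over w' l) :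
    w' = w ∨ w' = tv τ w := by
  have hcl := H48.T3.alg_cl M
  obtain ⟨s, hs⟩ := H38.WM.om_lift (K := K) τ
  obtain ⟨P, hP, hPw⟩ := gloc_over M QBar w.asIdeal w.isPrime
  obtain ⟨P', hP', hPw'⟩ := gloc_over M QBar w'.asIdeal w'.isPrime
  have hu : ∀ (P : Ideal (𝓞 QBar)) (w : Pl M), P.under (𝓞 M) = w.asIdeal → Over w l →
      P.under (𝓞 K) = l.asIdeal := by
    intro P w h1 h2
    rw [← (show w.asIdeal.comap (algebraMap (𝓞 K) (𝓞 M)) = l.asIdeal from h2), ← h1]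
    exact Ideal.ext fun a => Iff.rfl
  obtain ⟨g, hg⟩ := H57.SL.dic_tr P P' hP hP' ((hu P w hPw hw).trans (hu P' w' hPw' hw').symm)
  have hm : ∀ a : 𝓞 M, a ∈ w'.asIdeal ↔ g⁻¹ • (algebraMap (𝓞 M) (𝓞 QBar) a) ∈ P := by
    intro a
    rw [← hPw', Ideal.under, Ideal.mem_comap, hg, Ideal.mem_pointwise_smul_iff_inv_smul_mem]
  have hm' : ∀ a : 𝓞 M, a ∈ w.asIdeal ↔ algebraMap (𝓞 M) (𝓞 QBar) a ∈ P := by
    intro a
    rw [← hPw, Ideal.under, Ideal.mem_comap]
  rcases cos_ex H s hs g⁻¹ with ⟨σ, hσ⟩ | ⟨σ, hσ⟩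
  · left
    apply HeightOneSpectrum.ext
    ext a
    rw [hm, hm']
    have h1 : g⁻¹ • (algebraMap (𝓞 M) (𝓞 QBar) a) = algebraMap (𝓞 M) (𝓞 QBar) a := by
      rw [hσ]
      apply NumberField.RingOfIntegers.ext
      exact σ.commutes (a : M)
    rw [h1]
  · right
    apply HeightOneSpectrum.ext
    ext a
    rw [hm, tv_mem, hm']
    have h1 : g⁻¹ • (algebraMap (𝓞 M) (𝓞 QBar) a) = algebraMap (𝓞 M) (𝓞 QBar) (τ • a) := by
      rw [hσ]
      apply NumberField.RingOfIntegers.ext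
      show s (σ ((a : M) : QBar)) = ((τ (a : M) : M) : QBar)
      have h2 : σ ((a : M) : QBar) = ((a : M) : QBar) := σ.commutes (a : M)
      rw [h2]
      exact hs (a : M)
    rw [h1]

/-- the primes over `l` -/
theorem over_set (H : H38.WM.Om τ ω) (l : Pl K) :
    (over_finite (L := M) l).toFinset = {pw M l, tv τ (pw M l)} := by
  ext w
  rw [Set.Finite.mem_toFinset, Finset.mem_insert, Finset.mem_singleton]
  constructor
  · intro hw
    exact geo_tr H (pw_over l) hw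
  · rintro (h | h)
    · rw [h]
      exact pw_over l
    · rw [h]
      exact tv_over τ _ l (pw_over l)

/-- a sum over the primes over `l` -/
theorem over_sum (H : H38.WM.Om τ ω) (l : Pl K) (f : Pl M → ZMod 3) :
    ∑ w ∈ (over_finite (L := M) l).toFinset, (if tv τ w = w then 2 else 1) * f w =
      f (pw M l) + f (tv τ (pw M l)) := by
  rw [over_set H]
  by_cases h : tv τ (pw M l) = pw M l
  · rw [h, Finset.insert_eq_of_mem (Finset.mem_singleton_self _), Finset.sum_singleton, if_pos h]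
    ring
  · rw [Finset.sum_pair (Ne.symm h), if_neg h, tv_tv H, if_neg (Ne.symm h)]
    ring

theorem oq_nr (H : H38.WM.Om τ ω) (q : Finset (Pl K)) : nr (OQ M q) ≤ nr q ^ 2 := by
  have h1 : nr (OQ M q) ≤ ∏ l ∈ q, ((nm l : ℝ)) ^ 2 := by
    have h2 : nr (OQ M q) = ∏ l ∈ q, ∏ w ∈ (over_finite (L := M) l).toFinset, (nm w : ℝ) := by
      unfold nr OQ
      rw [Finset.prod_biUnion]
      intro l _ l' _ hne
      rw [Function.onFun, Finset.disjoint_left]
      intro w hw hw'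
      rw [Set.Finite.mem_toFinset] at hw hw'
      exact hne (below_unique hw hw')
    rw [h2]
    refine Finset.prod_le_prod (fun l _ => Finset.prod_nonneg fun w _ => Nat.cast_nonneg _)
      fun l _ => ?_
    rw [over_set H]
    have hl1 : (1 : ℝ) ≤ (nm l : ℝ) := by exact_mod_cast (one_lt_nm l).le
    by_cases h : tv τ (pw M l) = pw M l
    · rw [h, Finset.insert_eq_of_mem (Finset.mem_singleton_self _), Finset.prod_singleton]
      rcases geo_f H (pw_over (M := M) l) with hf | hf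
      · rw [hf]
        push_cast
        nlinarith
      · rw [hf]
        push_cast
        exact le_refl _
    · rw [Finset.prod_pair (Ne.symm h), tv_nm, geo_nm H (pw_over l) h]
      rw [pow_two]
  refine h1.trans (le_of_eq ?_)
  unfold nr
  rw [Finset.prod_pow]

theorem ray (H : H38.WM.Om τ ω) (D : RD M 3 ω) {S : Finset (Pl K)} (hD : SO D.toRD0 S) :
    ∃ (C₀ : ℝ) (A₀ : ℕ), 1 ≤ C₀ ∧ ∀ q : Finset (Pl K), (∀ l ∈ q, l ∉ S) →
      ∀ (k : Fin D.r → ZMod 3) (c : Pl K → ZMod 3), (∀ l, l ∉ q → c l = 0) → (k ≠ 0 ∨ c ≠ 0) →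
      ∃ 𝔣 : Ideal (𝓞 M), 𝔣 ≠ ⊥ ∧ (Ideal.absNorm 𝔣 : ℝ) ≤ C₀ * nr q ^ A₀ ∧ ∃ ψ : RC M 𝔣, ψ.Non ∧
        ∀ l, l ∉ S → l ∉ q → ∀ v : Pl M, Over v l →
          ψ.χ v.asIdeal = ep 3 (dt k (D.q v) +
            ∑ l' ∈ q, c l' * lg 3 ω (pw M l') (D.pi v * (cj τ (D.pi v))⁻¹)) := by
  refine ⟨(Ideal.absNorm D.M0 : ℝ), 2, ?_, ?_⟩
  · have h1 : Ideal.absNorm D.M0 ≠ 0 := by
      rw [Ne, Ideal.absNorm_eq_zero_iff]
      exact D.M0_ne
    exact_mod_cast Nat.one_le_iff_ne_zero.2 h1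
  intro q hq k c hc0 hkc
  have hb : ∀ w : Pl M, ∃ l : Pl K, Over w l := fun w => exists_below w
  choose b hb using hb
  have hEmem := mem_OQ (M := M) q
  have hES : ∀ w ∈ OQ M q, w ∉ D.S0 := by
    intro w hw hwS
    obtain ⟨l, hl, hwl⟩ := (hEmem w).1 hw
    obtain ⟨l', hl', hwl'⟩ := (hD w).1 hwS
    exact hq l hl (below_unique hwl hwl' ▸ hl')
  obtain ⟨μ, hμ⟩ : ∃ μ : Pl M → ZMod 3, ∀ w, μ w = c (b w) * (if tv τ w = w then 2 else 1) :=
    ⟨_, fun _ => rfl⟩
  obtain ⟨h1, h2⟩ := rayE p3 H.prim D (OQ M q) hES μ k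
  have hne : (∃ w ∈ OQ M q, μ w ≠ 0) ∨ k ≠ 0 := by
    rcases hkc with h | h
    · exact Or.inr h
    · left
      obtain ⟨l, hl⟩ := Function.ne_iff.1 h
      have hlq : l ∈ q := by
        by_contra h3
        exact hl (hc0 l h3)
      refine ⟨pw M l, (hEmem _).2 ⟨l, hlq, pw_over l⟩, ?_⟩
      rw [hμ, below_unique (hb (pw M l)) (pw_over l)]
      have h4 : ∀ a : ZMod 3, a ≠ 0 → a * 2 ≠ 0 ∧ a * 1 ≠ 0 := by decide
      split_ifs
      · exact (h4 _ hl).1
      · exact (h4 _ hl).2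
  obtain ⟨v0, hv0S, hv0E, hv0⟩ := h2 hne
  have hM : D.M0 * idl (OQ M q) ≠ ⊥ := mul_ne_zero D.M0_ne (idl_ne _)
  obtain ⟨ψ, hψ1, hψ2⟩ := ray_rc p3 hM h1
  refine ⟨D.M0 * idl (OQ M q), hM, ?_, ψ, hψ2 ⟨v0, ?_⟩, ?_⟩
  · rw [map_mul]
    push_cast
    rw [idl_norm]
    exact mul_le_mul_of_nonneg_left (oq_nr H q) (Nat.cast_nonneg _)
  · rw [if_neg (not_or.2 ⟨hv0S, hv0E⟩)]
    exact hv0
  · intro l hlS hlq v hv
    have hvS : v ∉ D.S0 := by
      intro h
      obtain ⟨l', hl', h3⟩ := (hD v).1 h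
      exact hlS (below_unique hv h3 ▸ hl')
    have hvE : v ∉ OQ M q := by
      intro h
      obtain ⟨l', hl', h3⟩ := (hEmem v).1 h
      exact hlq (below_unique hv h3 ▸ hl')
    rw [hψ1 v (by
      rw [alem_dvd' D.toRD0, not_or]
      exact ⟨hvS, hvE⟩), if_neg (not_or.2 ⟨hvS, hvE⟩)]
    congr 1
    unfold fE
    rw [add_comm]
    congr 1
    -- the sum over the primes over `q`
    have h3 : ∑ w ∈ OQ M q, μ w * D.LL w (D.pi v) =
        ∑ l ∈ q, ∑ w ∈ (over_finite (L := M) l).toFinset, μ w * D.LL w (D.pi v) := by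
      unfold OQ
      rw [Finset.sum_biUnion]
      intro l _ l' _ hne
      rw [Function.onFun, Finset.disjoint_left]
      intro w hw hw'
      rw [Set.Finite.mem_toFinset] at hw hw'
      exact hne (below_unique hw hw')
    rw [h3]
    refine Finset.sum_congr rfl fun l' hl' => ?_
    have hw0 : pw M l' ∈ OQ M q := (hEmem _).2 ⟨l', hl', pw_over l'⟩
    have hw1 : tv τ (pw M l') ∈ OQ M q := (hEmem _).2 ⟨l', hl', tv_over τ _ l' (pw_over l')⟩
    have h4 : ∑ w ∈ (over_finite (L := M) l').toFinset, μ w * D.LL w (D.pi v) =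
        c l' * ∑ w ∈ (over_finite (L := M) l').toFinset,
          (if tv τ w = w then 2 else 1) * D.LL w (D.pi v) := by
      rw [Finset.mul_sum]
      refine Finset.sum_congr rfl fun w hw => ?_
      rw [Set.Finite.mem_toFinset] at hw
      rw [hμ, below_unique (hb w) hw, mul_assoc]
    rw [h4, over_sum H l' fun w => D.LL w (D.pi v)]
    congr 1
    have hne0 : pw M l' ≠ v := fun h => hvE (h ▸ hw0)
    have hne1 : tv τ (pw M l') ≠ v := fun h => hvE (h ▸ hw1)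
    have ho0 : ord (pw M l') (D.pi v) = 0 := D.pi_ne v _ hvS (hES _ hw0) hne0
    have ho1 : ord (tv τ (pw M l')) (D.pi v) = 0 := D.pi_ne v _ hvS (hES _ hw1) hne1
    have ha0 : ¬ Above 3 (pw M l') := fun h => hES _ hw0 (D.above _ h)
    have ha1 : ¬ Above 3 (tv τ (pw M l')) := fun h => hES _ hw1 (D.above _ h)
    have ho2 : ord (pw M l') (cj τ (D.pi v)) = 0 := by
      rw [← tv_ord']
      exact ho1
    rw [LL_unit p3 H.prim D.toRD0 (hES _ hw0) ho0, LL_unit p3 H.prim D.toRD0 (hES _ hw1) ho1,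
      ← zpow_neg_one, lg_mul p3 H.prim ha0 ho0 (by rw [ord_zpow, ho2, mul_zero]),
      lg_zpow p3 H.prim ha0 ho2, lg_cj H _ ha0 ha1 _ ho1]
    congr 1
    generalize lg 3 ω (tv τ (pw M l')) (D.pi v) = a
    revert a
    decide

end H48.M3
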