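import Pool.Agent.H48.M3.Geo

/-!
# M3, block 1: reciprocity data over `M` with `S0` exactly the primes over `S`

`S₀` is the set of the primes of `K` below the primes of the set `T` of `rdx`.
-/

set_option autoImplicit false

open scoped NumberField Classical
open IsDedekindDomain H38.ML H63.MA

noncomputable section

namespace H48.M3

variable {K : IntermediateField ℚ QBar} [NumberField K]

theorem rdm (M : IntermediateField K QBar) [NumberField M] {ω : M} (hω : IsPrimitiveRoot ω 3) :
    ∃ S₀ : Finset (Pl K), (∀ l : Pl K, Above 3 l → l ∈ S₀) ∧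
      ∀ S : Finset (Pl K), (∀ l ∈ S₀, l ∈ S) → ∃ D : RD M 3 ω, SO D.toRD0 S := by
  obtain ⟨T, -, hT3, hT⟩ := H48.KV.rdx M Nat.prime_three
    (mone_odd Nat.prime_three (by norm_num) M) hω
  have hb : ∀ w : Pl M, ∃ l : Pl K, Over w l := fun w => exists_below w
  choose b hb using hb
  refine ⟨T.image b, ?_, ?_⟩
  · intro l hl
    have h1 : Over (pw M l) l := pw_over l
    have h2 := hT3 (pw M l) ((above_over h1 3).2 hl)
    rw [← below_unique (hb (pw M l)) h1]
    exact Finset.mem_image_of_mem b h2
  · intro S hS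
    obtain ⟨S1, hS1⟩ : ∃ S1 : Finset (Pl M), ∀ w, w ∈ S1 ↔ ∃ l ∈ S, Over w l := by
      refine ⟨S.biUnion fun l => (over_finite (L := M) l).toFinset, fun w => ?_⟩
      rw [Finset.mem_biUnion]
      simp only [Set.Finite.mem_toFinset, Set.mem_setOf_eq]
    obtain ⟨D, hD⟩ := hT S1 (by
      intro w hw
      exact (hS1 w).2 ⟨b w, hS _ (Finset.mem_image_of_mem b hw), hb w⟩)
    refine ⟨D, fun w => ?_⟩
    rw [hD]
    exact hS1 w

end H48.M3
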