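import Pool.Agent.H48.M3.Typ

/-!
# M3: the dictionary (final)

The sum of `∏_{l ∈ q} mu l` over the characters of the type of `χ₁` at `S` with `cf ≤ R` is the sum over the finite set `Ty` of the pairs `(ε, c)` of the sums over the
`a ∈ AA` with `qf a = c`, `nr a ≤ R`, of `∏_{l ∈ q} mm ε a l`, without the term `(1, ∅)`.
-/

set_option autoImplicit false

open scoped NumberField Classical
open IsDedekindDomain H38.ML H63.MA

noncomputable section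

namespace H48.M3

open H48.AQ

variable {K : IntermediateField ℚ QBar} [NumberField K] {M : IntermediateField K QBar}
  [NumberField M] {τ : Gal(M/K)} {ω : M}

/-- the index sets of one class and of bounded norm -/
def AR (D : RD0 M 3 ω) (τ : Gal(M/K)) (c : Fin D.r → ZMod 3) (R : ℝ) : Finset (Finset (Pl M)) :=
  (AF M R).filter fun a => a ∈ AA D τ ∧ qf D a = c

theorem dict (H : H38.WM.Om τ ω) (D : RD0 M 3 ω) {S : Finset (Pl K)} (hD : SO D S)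
    {U : Finset Mˣ} (hU : UU D τ U) (Q : DP K QBar)
    (χ₁ : Gal(QBar/K) →* Multiplicative (ZMod 3)) (hχ₁ : χ₁ ∈ H38.MT.Ch K) :
    ∃ Ty : Finset (Mˣ × (Fin D.r → ZMod 3)), Ty.Nonempty ∧ (∀ x ∈ Ty, x.1 ∈ U) ∧
      ∀ R : ℝ, (H38.MT.CX Q S χ₁ R).Finite ∧
        ∀ q : Finset (Pl K), (∀ l ∈ q, l ∉ S) →
          ((∑ᶠ χ ∈ H38.MT.CX Q S χ₁ R, ∏ l ∈ q, H67.AQ.mu Q χ l : ℝ) : ℂ) =
            ∑ x ∈ Ty, ∑ a ∈ AR D τ x.2 R,
              if x.1 = 1 ∧ a = ∅ then 0 else ∏ l ∈ q, mm D τ x.1 a l := by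
  obtain ⟨F, hF⟩ : ∃ F : Mˣ × Finset (Pl M) → Gal(QBar/K) →* Multiplicative (ZMod 3),
      ∀ x, F x = CH M ω (x.1 * yy D τ x.2) := ⟨fun x => CH M ω (x.1 * yy D τ x.2), fun _ => rfl⟩
  obtain ⟨Ty, hTy⟩ : ∃ Ty : Finset (Mˣ × (Fin D.r → ZMod 3)), ∀ x, x ∈ Ty ↔
      x.1 ∈ U ∧ ∃ a ∈ AA D τ, qf D a = x.2 ∧ Teq S Q (F (x.1, a)) χ₁ := by
    refine ⟨(U ×ˢ Finset.univ).filter fun x => ∃ a ∈ AA D τ, qf D a = x.2 ∧
      Teq S Q (F (x.1, a)) χ₁, fun x => ?_⟩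
    rw [Finset.mem_filter, Finset.mem_product]
    exact ⟨fun h => ⟨h.1.1, h.2⟩, fun h => ⟨⟨h.1, Finset.mem_univ _⟩, h.2⟩⟩
  have hall : ∀ χ : Gal(QBar/K) →* Multiplicative (ZMod 3), χ ∈ H38.MT.Ch K → Teq S Q χ χ₁ →
      ∃ ε ∈ U, ∃ a ∈ AA D τ, χ = F (ε, a) ∧ (ε, qf D a) ∈ Ty ∧ ¬ (ε = 1 ∧ a = ∅) := by
    intro χ hχ hT
    obtain ⟨ε, hε, a, ha, h⟩ := nf_ch H D hD hU χ hχ.1
    refine ⟨ε, hε, a, ha, by rw [hF, h], ?_, ?_⟩
    · rw [hTy]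
      refine ⟨hε, a, ha, rfl, ?_⟩
      rw [hF, ← h]
      exact hT
    · intro h1
      have h2 := (nf_one H D hD hU hε ha).2 h1
      rw [← h] at h2
      exact ((H38.MT.ba_ch χ).1 hχ).2 h2
  refine ⟨Ty, ?_, fun x hx => ((hTy x).1 hx).1, fun R => ?_⟩
  · obtain ⟨ε, -, a, -, -, h, -⟩ := hall χ₁ hχ₁ (fun _ _ _ _ => rfl)
    exact ⟨_, h⟩
  obtain ⟨J, hJ⟩ : ∃ J : Finset (Mˣ × Finset (Pl M)), ∀ x, x ∈ J ↔ (x.1 ∈ U ∧ nr x.2 ≤ R) ∧
      x.2 ∈ AA D τ ∧ (x.1, qf D x.2) ∈ Ty ∧ ¬ (x.1 = 1 ∧ x.2 = ∅) := by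
    refine ⟨(U ×ˢ AF M R).filter fun x => x.2 ∈ AA D τ ∧ (x.1, qf D x.2) ∈ Ty ∧
      ¬ (x.1 = 1 ∧ x.2 = ∅), fun x => ?_⟩
    rw [Finset.mem_filter, Finset.mem_product, mem_AF]
  have hset : H38.MT.CX Q S χ₁ R = ((J.image F : Finset _) :
      Set (Gal(QBar/K) →* Multiplicative (ZMod 3))) := by
    ext χ
    rw [Finset.mem_coe, Finset.mem_image]
    constructor
    · rintro ⟨h1, h2, h3⟩
      obtain ⟨ε, hε, a, ha, h4, h5, h6⟩ := hall χ h1 h2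
      refine ⟨(ε, a), (hJ _).2 ⟨⟨hε, ?_⟩, ha, h5, h6⟩, h4.symm⟩
      rw [h4, hF, rm_cf H D hD Q (hU.tu ε hε) (hU.cu ε hε) ha] at h3
      exact h3
    · rintro ⟨⟨ε, a⟩, h, rfl⟩
      obtain ⟨⟨hε, h1⟩, ha, h2, h3⟩ := (hJ _).1 h
      have h4 : F (ε, a) = CH M ω (ε * yy D τ a) := hF _
      rw [h4]
      refine ⟨(H38.MT.ba_ch _).2 ⟨(ch_sp H _ (cu_mul H D (hU.cu ε hε) a)).1, fun h5 => ?_⟩, ?_, ?_⟩
      · exact h3 ((nf_one H D hD hU hε ha).1 h5)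
      · obtain ⟨-, a', ha', h6, h7⟩ := (hTy _).1 h2
        rw [hF] at h7
        have h8 := ty_eq H D hD Q (hU.cu ε hε) ha ha' h6.symm
        intro v hv σ hσ
        rw [h8 v hv σ hσ]
        exact h7 v hv σ hσ
      · rw [rm_cf H D hD Q (hU.tu ε hε) (hU.cu ε hε) ha]
        exact h1
  rw [hset]
  refine ⟨Finset.finite_toSet _, fun q hq => ?_⟩
  rw [finsum_mem_coe_finset, Finset.sum_image]
  · push_cast
    have h1 : ∀ x ∈ J, ∏ l ∈ q, ((H67.AQ.mu Q (F x) l : ℝ) : ℂ) =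
        ∏ l ∈ q, mm D τ x.1 x.2 l := by
      intro x hx
      obtain ⟨⟨hε, -⟩, ha, -, -⟩ := (hJ x).1 hx
      refine Finset.prod_congr rfl fun l hl => ?_
      rw [hF]
      exact mu_mm H D hD Q (hU.tu _ hε) (hU.cu _ hε) ha l (hq l hl)
    rw [Finset.sum_congr rfl h1]
    rw [← Finset.sum_fiberwise_of_maps_to (s := J) (t := Ty) (g := fun x => (x.1, qf D x.2))
      (fun x hx => ((hJ x).1 hx).2.2.1)]
    refine Finset.sum_congr rfl fun y hy => ?_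
    rw [← Finset.sum_filter_add_sum_filter_not (AR D τ y.2 R) (fun a => y.1 = 1 ∧ a = ∅)]
    have h2 : ∑ a ∈ (AR D τ y.2 R).filter (fun a => y.1 = 1 ∧ a = ∅),
        (if y.1 = 1 ∧ a = ∅ then (0 : ℂ) else ∏ l ∈ q, mm D τ y.1 a l) = 0 := by
      refine Finset.sum_eq_zero fun a ha => ?_
      rw [if_pos (Finset.mem_filter.1 ha).2]
    rw [h2, zero_add]
    refine Finset.sum_bij (fun x _ => x.2) ?_ ?_ ?_ ?_
    · intro x hx
      obtain ⟨h3, h4⟩ := Finset.mem_filter.1 hx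
      obtain ⟨⟨hε, h5⟩, ha, h6, h7⟩ := (hJ x).1 h3
      have h8 : x.1 = y.1 := congrArg Prod.fst h4
      have h9 : qf D x.2 = y.2 := congrArg Prod.snd h4
      rw [Finset.mem_filter]
      refine ⟨?_, ?_⟩
      · unfold AR
        rw [Finset.mem_filter, mem_AF]
        exact ⟨h5, ha, h9⟩
      · rw [← h8]
        exact h7
    · intro x hx x' hx' h
      have h4 := (Finset.mem_filter.1 hx).2
      have h4' := (Finset.mem_filter.1 hx').2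
      exact Prod.ext ((congrArg Prod.fst h4).trans (congrArg Prod.fst h4').symm) h
    · intro a ha
      obtain ⟨h3, h4⟩ := Finset.mem_filter.1 ha
      unfold AR at h3
      rw [Finset.mem_filter, mem_AF] at h3
      refine ⟨(y.1, a), ?_, rfl⟩
      rw [Finset.mem_filter, hJ]
      have h5 : (y.1, qf D a) = y := Prod.ext rfl h3.2.2
      refine ⟨⟨⟨((hTy y).1 hy).1, h3.1⟩, h3.2.1, ?_, h4⟩, h5⟩
      rw [h5]
      exact hy
    · intro x hx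
      obtain ⟨h3, h4⟩ := Finset.mem_filter.1 hx
      obtain ⟨-, -, -, h7⟩ := (hJ x).1 h3
      have h8 : x.1 = y.1 := congrArg Prod.fst h4
      rw [← h8, if_neg h7]
  · intro x hx x' hx' h
    obtain ⟨⟨hε, -⟩, ha, -, -⟩ := (hJ x).1 hx
    obtain ⟨⟨hε', -⟩, ha', -, -⟩ := (hJ x').1 hx'
    rw [hF, hF] at h
    obtain ⟨h1, h2⟩ := nf_uni H D hD hU hε hε' ha ha' h
    exact Prod.ext h1 h2

end H48.M3
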