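import Pool.Agent.H38.WM.Eqv
import Pool.Agent.H38.WM.OrT
import Pool.Agent.H48.AQ.Ty
import Pool.Agent.H48.KV.Rdx
import Pool.Agent.H38.AS.GQb
import Pool.Agent.H63.MA.GUpA
import Pool.Agent.H38.MT.Defs

/-!
# M3 (AQ, MP_b39724_nt), blocks 1 and 2: the characters of order 3 of `K` by Kummer theory over `M = K(ω)`. Definitions (complete)

`K` does not contain the cube roots of unity, `M = K(ω)`, `τ ω = ω ^ 2`. `tv τ v`: the conjugate prime, `cj τ x = τ x`. `D : RD0 M 3 ω` with `D.S0` the set of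
the primes of `M` over the primes of `S` (`SO D S`).
* `AA D τ`: the finite sets `a` of primes of `M` outside `S0` with `τ v ∉ a` for `v ∈ a` (so the `v ∈ a` are split over `K`, at most one over each prime of `K`).
* `yy D τ a = ∏_{v ∈ a} π_v / τ(π_v)`.
* `UU D τ U`: `U` is a set of representatives of the `S0`-units `ε` with `ε τ(ε)` a cube, modulo cubes; `1 ∈ U`.
* `CH M ω x`: the character of finite type of `Gal(QBar/K)` whose restriction to `Gal(QBar/M)` is the Kummer character of `x` (if there is one).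
* `Bl a l`: a prime of `a` lies over `l`. `pw l`: a prime of `M` over `l`. `mm D τ ε a l` is the value of `mu` for `CH (ε yy a)`: `-1` if `Bl a l`, and
  `ep θ + ep (-θ)`, `θ = lg (pw l) (ε yy a)` if not.
-/

set_option autoImplicit false

open scoped NumberField Classical
open IsDedekindDomain H38.ML H63.MA

noncomputable section

namespace H48.M3

open H48.AQ

variable {K : IntermediateField ℚ QBar} [NumberField K] {M : IntermediateField K QBar}
  [NumberField M]

/-- the conjugate prime -/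
def tv (τ : Gal(M/K)) : Pl M → Pl M := (H38.WM.orT τ).choose

theorem tv_ord (τ : Gal(M/K)) (l : Pl M) (x : Mˣ) :
    ord (tv τ l) x = ord l (Units.map (τ : M →* M) x) := (H38.WM.orT τ).choose_spec.1 l x

theorem tv_mem (τ : Gal(M/K)) (l : Pl M) (a : 𝓞 M) :
    a ∈ (tv τ l).asIdeal ↔ τ • a ∈ l.asIdeal := (H38.WM.orT τ).choose_spec.2.1 l a

theorem tv_nm (τ : Gal(M/K)) (l : Pl M) : nm (tv τ l) = nm l := (H38.WM.orT τ).choose_spec.2.2.1 l

theorem tv_over (τ : Gal(M/K)) (l : Pl M) (p : Pl K) (h : Over l p) : Over (tv τ l) p :=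
  (H38.WM.orT τ).choose_spec.2.2.2 l p h

/-- the conjugate element -/
def cj (τ : Gal(M/K)) : Mˣ →* Mˣ := Units.map (τ : M →* M)

variable {ω : M}

/-- `S0` is the set of the primes over `S` -/
def SO (D : RD0 M 3 ω) (S : Finset (Pl K)) : Prop := ∀ w : Pl M, w ∈ D.S0 ↔ ∃ l ∈ S, Over w l

/-- the index sets -/
def AA (D : RD0 M 3 ω) (τ : Gal(M/K)) : Set (Finset (Pl M)) :=
  {a | ∀ v ∈ a, v ∉ D.S0 ∧ tv τ v ∉ a}

/-- the elements -/
def yy (D : RD0 M 3 ω) (τ : Gal(M/K)) (a : Finset (Pl M)) : Mˣ :=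
  ∏ v ∈ a, (D.pi v * (cj τ (D.pi v))⁻¹)

/-- representatives of the `S0`-units `ε` with `ε τ(ε)` a cube, modulo cubes -/
structure UU (D : RD0 M 3 ω) (τ : Gal(M/K)) (U : Finset Mˣ) : Prop where
  one : 1 ∈ U
  tu : ∀ u ∈ U, TUnit D.S0 u
  cu : ∀ u ∈ U, ∃ y : Mˣ, u * cj τ u = y ^ 3
  ex : ∀ x, TUnit D.S0 x → (∃ y : Mˣ, x * cj τ x = y ^ 3) → ∃ u ∈ U, ∃ y : Mˣ, x = u * y ^ 3
  un : ∀ u ∈ U, ∀ u' ∈ U, ∀ y : Mˣ, u = u' * y ^ 3 → u = u'

/-- the character of `Gal(QBar/K)` with Kummer class `x` over `M` -/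
def CH (M : IntermediateField K QBar) (ω : M) (x : Mˣ) :
    Gal(QBar/K) →* Multiplicative (ZMod 3) :=
  if h : ∃ χ : Gal(QBar/K) →* Multiplicative (ZMod 3), FT χ ∧
    ∀ σ : Gal(QBar/M), χ (σ.restrictScalars K) = kc 3 ω QBar x σ then h.choose else 1

/-- a prime of `a` lies over `l` -/
def Bl (a : Finset (Pl M)) (l : Pl K) : Prop := ∃ v ∈ a, Over v l

/-- a prime of `M` over `l` -/
def pw (M : IntermediateField K QBar) [NumberField M] (l : Pl K) : Pl M :=
  (exists_over (L := M) l).choose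

theorem pw_over (l : Pl K) : Over (pw M l) l := (exists_over (L := M) l).choose_spec

/-- the values -/
def mm (D : RD0 M 3 ω) (τ : Gal(M/K)) (ε : Mˣ) (a : Finset (Pl M)) (l : Pl K) : ℂ :=
  if Bl a l then -1 else
    ep 3 (lg 3 ω (pw M l) (ε * yy D τ a)) + ep 3 (-lg 3 ω (pw M l) (ε * yy D τ a))

end H48.M3
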