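import Pool.Agent.H48.M3.Geo

/-!
# M3: the extension of a Kummer character of `M` to `K`

Let `x τ(x)` be a cube and `ψ = kc x` on `Gal(QBar/M)`. Then `ψ (s⁻¹ n s) = ψ n` for `s ∈ Gal(QBar/K)`, and `χ s = ψ (s ^ 2) ^ 2` is a homomorphism, the unique
extension of `ψ`.
-/

set_option autoImplicit false

open scoped NumberField Classical
open IsDedekindDomain H38.ML H63.MA

noncomputable section

namespace H48.M3

open H48.AQ

variable {K : IntermediateField ℚ QBar} [NumberField K] {M : IntermediateField K QBar}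
  [NumberField M] {τ : Gal(M/K)} {ω : M}

private theorem p3 : Nat.Prime 3 := Nat.prime_three

omit [NumberField K] [NumberField M] in
theorem rs_inj (σ ρ : Gal(QBar/M)) (h : (σ.restrictScalars K : Gal(QBar/K)) = ρ.restrictScalars K) :
    σ = ρ := by
  apply AlgEquiv.ext
  intro x
  exact DFunLike.congr_fun h x

private theorem cube3 (x : Multiplicative (ZMod 3)) : x = (x * x) * (x * x) := by
  have h : ∀ a : ZMod 3, a = (a + a) + (a + a) := by decide
  exact congrArg Multiplicative.ofAdd (h (Multiplicative.toAdd x))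

/-- a character is determined by its restriction -/
theorem ex_un (H : H38.WM.Om τ ω) (χ χ' : Gal(QBar/K) →* Multiplicative (ZMod 3))
    (h : ∀ σ : Gal(QBar/M), χ (σ.restrictScalars K) = χ' (σ.restrictScalars K)) : χ = χ' := by
  apply MonoidHom.ext
  intro σ
  obtain ⟨σ', hσ'⟩ := H38.WM.om_sq τ ω H σ
  have h1 := h σ'
  rw [hσ', map_mul, map_mul] at h1
  rw [cube3 (χ σ), cube3 (χ' σ), h1]

/-- the conjugate of an element under `s` which acts as `τ` on `M` -/
theorem kk_cj (H : H38.WM.Om τ ω) (s : Gal(QBar/K)) (hs : ∀ x : M, s (x : QBar) = (τ x : M))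
    (σ σ' : Gal(QBar/M)) (hσ : (σ'.restrictScalars K : Gal(QBar/K)) =
      s⁻¹ * (σ.restrictScalars K : Gal(QBar/K)) * s) (x : Mˣ) :
    kk 3 ω (cj τ x) σ = 2 * kk 3 ω x σ' := by
  have hcl := H48.T3.alg_cl M
  obtain ⟨b, hb⟩ := gkum_root (K := M) (Ω := QBar) (p := 3) p3 x
  have hb' : (s b) ^ 3 = algebraMap M QBar (cj τ x : M) := by
    rw [← map_pow, hb]
    exact hs (x : M)
  have h3 : σ (s b) = s (σ' b) := by
    have h4 : (σ'.restrictScalars K : Gal(QBar/K)) b = σ' b := rfl
    have h5 : (σ.restrictScalars K : Gal(QBar/K)) (s b) = σ (s b) := rfl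
    rw [← h4, ← h5, hσ]
    rw [← AlgEquiv.mul_apply, ← AlgEquiv.mul_apply]
    congr 1
    rw [← mul_assoc, ← mul_assoc, mul_inv_cancel, one_mul]
  have h4 := kk_root (Ω := QBar) p3 H.prim x b hb σ'
  have h5 : s (algebraMap M QBar ω) = (algebraMap M QBar ω) ^ 2 := by
    have h6 : s ((ω : M) : QBar) = ((τ ω : M) : QBar) := hs ω
    rw [H.act] at h6
    exact h6
  have h6 : σ (s b) = algebraMap M QBar ω ^ (2 * ((kk 3 ω x σ').val : ℤ)) * s b := by
    rw [h3, h4, map_mul, map_pow, h5, ← pow_mul, ← zpow_natCast]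
    congr 2
  have h7 := kk_of_root (Ω := QBar) p3 H.prim (cj τ x) (s b) hb' σ _ h6
  rw [h7]
  push_cast
  rw [ZMod.natCast_zmod_val]

/-- the Kummer character on the subgroup fixing `M` -/
private def ps (M : IntermediateField K QBar) (ω : M) (x : Mˣ) (g : Gal(QBar/K)) :
    Multiplicative (ZMod 3) :=
  if h : ∃ σ : Gal(QBar/M), (σ.restrictScalars K : Gal(QBar/K)) = g then kc 3 ω QBar x h.choose
  else 1

omit [NumberField K] [NumberField M] in
private theorem ps_eq (x : Mˣ) (σ : Gal(QBar/M)) : ps M ω x (σ.restrictScalars K) = kc 3 ω QBar x σ := by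
  have h : ∃ σ' : Gal(QBar/M), (σ'.restrictScalars K : Gal(QBar/K)) = σ.restrictScalars K :=
    ⟨σ, rfl⟩
  unfold ps
  rw [dif_pos h, rs_inj _ _ h.choose_spec]

omit [NumberField K] [NumberField M] in
private theorem ps_mul (x : Mˣ) (σ ρ : Gal(QBar/M)) :
    ps M ω x (σ.restrictScalars K * ρ.restrictScalars K) =
      ps M ω x (σ.restrictScalars K) * ps M ω x (ρ.restrictScalars K) := by
  have h1 : (σ * ρ).restrictScalars K = σ.restrictScalars K * ρ.restrictScalars K := rfl
  rw [← h1, ps_eq, ps_eq, ps_eq, map_mul]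

omit [NumberField M] in
/-- `s` fixes `ω` or maps it to `ω ^ 2`; if `s` and `t` both move `ω` then `s⁻¹ t` fixes `M` -/
private theorem up_ex (H : H38.WM.Om τ ω) (s : Gal(QBar/K)) (h : s (ω : QBar) = ω) :
    ∃ σ : Gal(QBar/M), (σ.restrictScalars K : Gal(QBar/K)) = s := by
  have key : ∀ y ∈ IntermediateField.adjoin K {(ω : QBar)}, s y = y := by
    intro y hy
    induction hy using IntermediateField.adjoin_induction with
    | mem y hy =>
      rw [Set.mem_singleton_iff] at hy
      rw [hy]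
      exact h
    | algebraMap y => exact s.commutes y
    | add y z _ _ h1 h2 => rw [map_add, h1, h2]
    | inv y _ h1 => rw [map_inv₀, h1]
    | mul y z _ _ h1 h2 => rw [map_mul, h1, h2]
  refine ⟨{ s.toRingEquiv with commutes' := fun x => key x ?_ }, AlgEquiv.ext fun _ => rfl⟩
  rw [H.top]
  exact x.2

omit [NumberField M] in
private theorem img (H : H38.WM.Om τ ω) (s : Gal(QBar/K)) :
    s (ω : QBar) = ω ∨ s (ω : QBar) = (ω : QBar) ^ 2 := by
  have hω : IsPrimitiveRoot (ω : QBar) 3 :=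
    H.prim.map_of_injective (f := algebraMap M QBar) (algebraMap M QBar).injective
  have h1 : (s ω) ^ 3 = 1 := by rw [← map_pow, hω.pow_eq_one, map_one]
  obtain ⟨i, hi, h2⟩ := hω.eq_pow_of_pow_eq_one h1
  have h3 : i ≠ 0 := by
    rintro rfl
    rw [pow_zero] at h2
    have h4 : (ω : QBar) = 1 := by
      apply s.injective
      rw [← h2, map_one]
    exact hω.ne_one (by norm_num) h4
  have h4 : i = 1 ∨ i = 2 := by omega
  rcases h4 with rfl | rfl
  · left
    rw [← h2, pow_one]
  · right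
    rw [← h2]

/-- every element is in `Gal(QBar/M)` or in `s₀ Gal(QBar/M)` -/
theorem cos_ex (H : H38.WM.Om τ ω) (s₀ : Gal(QBar/K))
    (hs : ∀ x : M, s₀ (x : QBar) = (τ x : M)) (g : Gal(QBar/K)) :
    (∃ σ : Gal(QBar/M), g = σ.restrictScalars K) ∨
      ∃ σ : Gal(QBar/M), g = s₀ * σ.restrictScalars K := by
  rcases img H g with h | h
  · obtain ⟨σ, hσ⟩ := up_ex H g h
    exact Or.inl ⟨σ, hσ.symm⟩
  · right
    have h0 : s₀ (ω : QBar) = (ω : QBar) ^ 2 := by
      rw [hs ω, H.act]
      rfl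
    have h1 : (s₀⁻¹ * g) (ω : QBar) = ω := by
      show s₀.symm (g (ω : QBar)) = ω
      rw [h, ← h0]
      exact s₀.symm_apply_apply _
    obtain ⟨σ, hσ⟩ := up_ex H _ h1
    refine ⟨σ, ?_⟩
    rw [hσ, mul_inv_cancel_left]

theorem ex_ch (H : H38.WM.Om τ ω) (x : Mˣ) (hx : ∃ y : Mˣ, x * cj τ x = y ^ 3) :
    ∃ χ : Gal(QBar/K) →* Multiplicative (ZMod 3), FT χ ∧
      ∀ σ : Gal(QBar/M), χ (σ.restrictScalars K) = kc 3 ω QBar x σ := by
  have hcl := H48.T3.alg_cl M
  have hfd : FiniteDimensional K M := FiniteDimensional.right ℚ K M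
  obtain ⟨s, hs⟩ := H38.WM.om_lift (K := K) τ
  -- invariance
  have hinv : ∀ σ σ' : Gal(QBar/M), (σ'.restrictScalars K : Gal(QBar/K)) =
      s⁻¹ * (σ.restrictScalars K : Gal(QBar/K)) * s → kc 3 ω QBar x σ' = kc 3 ω QBar x σ := by
    intro σ σ' h
    have h1 := kk_cj H s hs σ σ' h x
    have h2 : kk 3 ω (x * cj τ x) σ = 0 := by
      obtain ⟨y, hy⟩ := hx
      exact (kk_eq_zero_iff (Ω := QBar) p3 H.prim (x * cj τ x)).2 ⟨y, hy.symm⟩ σ
    rw [kk_mul_arg p3 H.prim, h1] at h2
    have h3 : ∀ a b : ZMod 3, a + 2 * b = 0 → b = a := by decide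
    exact Multiplicative.toAdd.injective (h3 _ _ h2)
  -- `ps` on the products
  obtain ⟨P, hP⟩ : ∃ P : Gal(QBar/K) → Multiplicative (ZMod 3), P = ps M ω x := ⟨_, rfl⟩
  have hPm : ∀ σ ρ : Gal(QBar/M), P (σ.restrictScalars K * ρ.restrictScalars K) =
      P (σ.restrictScalars K) * P (ρ.restrictScalars K) := by
    intro σ ρ
    rw [hP]
    exact ps_mul x σ ρ
  have hPe : ∀ σ : Gal(QBar/M), P (σ.restrictScalars K) = kc 3 ω QBar x σ := by
    intro σ
    rw [hP]
    exact ps_eq x σ
  have hcj : ∀ σ : Gal(QBar/M), ∃ σ' : Gal(QBar/M), (σ'.restrictScalars K : Gal(QBar/K)) =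
      s⁻¹ * (σ.restrictScalars K : Gal(QBar/K)) * s ∧
      P (σ'.restrictScalars K) = P (σ.restrictScalars K) := by
    intro σ
    obtain ⟨σ', hσ'⟩ := H38.WM.om_conj τ ω H s σ
    exact ⟨σ', hσ', by rw [hPe, hPe, hinv σ σ' hσ']⟩
  obtain ⟨e, he⟩ := H38.WM.om_sq τ ω H s
  obtain ⟨F, hF⟩ : ∃ F : Gal(QBar/K) → Multiplicative (ZMod 3), ∀ g, F g = P (g * g) * P (g * g) :=
    ⟨fun g => P (g * g) * P (g * g), fun _ => rfl⟩
  have hF1 : ∀ σ : Gal(QBar/M), F (σ.restrictScalars K) = P (σ.restrictScalars K) := by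
    intro σ
    rw [hF, hPm, ← cube3]
  -- the square of `s n`
  have hsq : ∀ σ : Gal(QBar/M), P (s * σ.restrictScalars K * (s * σ.restrictScalars K)) =
      P (e.restrictScalars K) * (P (σ.restrictScalars K) * P (σ.restrictScalars K)) := by
    intro σ
    obtain ⟨σ', h1, h2⟩ := hcj σ
    have h3 : s * σ.restrictScalars K * (s * σ.restrictScalars K) =
        e.restrictScalars K * ((σ' * σ).restrictScalars K) := by
      have h4 : (σ' * σ).restrictScalars K = σ'.restrictScalars K * σ.restrictScalars K := rfl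
      rw [h4, h1, he]
      group
    rw [h3, hPm]
    have h4 : (σ' * σ).restrictScalars K = σ'.restrictScalars K * σ.restrictScalars K := rfl
    rw [h4, hPm, h2]
  have hF2 : ∀ σ : Gal(QBar/M), F (s * σ.restrictScalars K) =
      F s * P (σ.restrictScalars K) := by
    intro σ
    rw [hF, hF, hsq, ← he]
    have h5 := cube3 (P (σ.restrictScalars K))
    generalize P (σ.restrictScalars K) = a at h5 ⊢
    generalize P (e.restrictScalars K) = b
    conv_rhs => rw [h5]
    simp only [mul_assoc, mul_left_comm, mul_comm]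
  have hF3 : F s * F s = P (e.restrictScalars K) := by
    rw [hF, ← he]
    exact (cube3 _).symm
  have hmul : ∀ g h : Gal(QBar/K), F (g * h) = F g * F h := by
    intro g h
    rcases cos_ex H s hs g with ⟨σ, rfl⟩ | ⟨σ, rfl⟩
    · rcases cos_ex H s hs h with ⟨ρ, rfl⟩ | ⟨ρ, rfl⟩
      · have h1 : (σ * ρ).restrictScalars K = σ.restrictScalars K * ρ.restrictScalars K := rfl
        rw [← h1, hF1, hF1, hF1, h1, hPm]
      · obtain ⟨σ', h1, h2⟩ := hcj σ
        have h3 : σ.restrictScalars K * (s * ρ.restrictScalars K) =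
            s * ((σ' * ρ).restrictScalars K) := by
          have h4 : (σ' * ρ).restrictScalars K = σ'.restrictScalars K * ρ.restrictScalars K := rfl
          rw [h4, h1]
          group
        have h4 : (σ' * ρ).restrictScalars K = σ'.restrictScalars K * ρ.restrictScalars K := rfl
        rw [h3, hF2, hF2, hF1, h4, hPm, h2, mul_left_comm]
    · rcases cos_ex H s hs h with ⟨ρ, rfl⟩ | ⟨ρ, rfl⟩
      · have h1 : (σ * ρ).restrictScalars K = σ.restrictScalars K * ρ.restrictScalars K := rfl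
        rw [mul_assoc, ← h1, hF2, hF2, hF1, h1, hPm, mul_assoc]
      · obtain ⟨σ', h1, h2⟩ := hcj σ
        have h3 : s * σ.restrictScalars K * (s * ρ.restrictScalars K) =
            (e * (σ' * ρ)).restrictScalars K := by
          have h4 : (e * (σ' * ρ)).restrictScalars K =
            e.restrictScalars K * (σ'.restrictScalars K * ρ.restrictScalars K) := rfl
          rw [h4, h1, he]
          group
        have h4 : (e * (σ' * ρ)).restrictScalars K =
            e.restrictScalars K * ((σ' * ρ).restrictScalars K) := rfl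
        have h5 : (σ' * ρ).restrictScalars K = σ'.restrictScalars K * ρ.restrictScalars K := rfl
        rw [h3, hF1, h4, hPm, h5, hPm, h2, hF2, hF2, ← hF3]
        simp only [mul_assoc, mul_left_comm, mul_comm]
  have hone : F 1 = 1 := by
    have h1 := hmul 1 1
    rw [mul_one] at h1
    exact left_eq_mul.1 h1
  refine ⟨⟨⟨F, hone⟩, hmul⟩, ?_, ?_⟩
  · obtain ⟨E, hE, hle⟩ := (kc_is (Ω := QBar) p3 H.prim x).1
    refine ⟨E.restrictScalars K, ?_, ?_⟩
    · have h1 : FiniteDimensional K E := FiniteDimensional.trans K M E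
      exact h1
    · intro σ hσ
      rw [IntermediateField.mem_fixingSubgroup_iff] at hσ
      obtain ⟨σ', hσ'⟩ := up_ex H σ (hσ _ (E.algebraMap_mem ω))
      have h1 : σ' ∈ E.fixingSubgroup := by
        rw [IntermediateField.mem_fixingSubgroup_iff]
        intro y hy
        have h2 : (σ'.restrictScalars K : Gal(QBar/K)) y = y := by
          rw [hσ']
          exact hσ y hy
        exact h2
      have h2 := MonoidHom.mem_ker.1 (hle h1)
      rw [MonoidHom.mem_ker]
      show F σ = 1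
      rw [← hσ', hF1, hPe, h2]
  · intro σ
    show F (σ.restrictScalars K) = _
    rw [hF1, hPe]

/-- the character `CH` -/
theorem ch_sp (H : H38.WM.Om τ ω) (x : Mˣ) (hx : ∃ y : Mˣ, x * cj τ x = y ^ 3) :
    FT (CH M ω x) ∧ ∀ σ : Gal(QBar/M), CH M ω x (σ.restrictScalars K) = kc 3 ω QBar x σ := by
  have h := ex_ch H x hx
  unfold CH
  rw [dif_pos h]
  exact h.choose_spec

theorem ch_eq (H : H38.WM.Om τ ω) (x : Mˣ) (hx : ∃ y : Mˣ, x * cj τ x = y ^ 3)
    (χ : Gal(QBar/K) →* Multiplicative (ZMod 3))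
    (h : ∀ σ : Gal(QBar/M), χ (σ.restrictScalars K) = kc 3 ω QBar x σ) : χ = CH M ω x := by
  apply ex_un H
  intro σ
  rw [h, (ch_sp H x hx).2]

end H48.M3
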