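import Pool.Agent.H48.M3.Def
import Pool.Agent.H48.CR.Pw
import Pool.Agent.H38.WM.Spl

/-!
# M3: the action of `τ` on the primes of `M`

A prime `v` with `τ v ≠ v` has the norm of the prime below, and `v`, `τ v` are all primes over it. `f ≤ 2` if `nm w = nm l ^ f`.
-/

set_option autoImplicit false

open scoped NumberField Classical
open IsDedekindDomain H38.ML H63.MA

noncomputable section

namespace H48.M3

open H48.AQ

variable {K : IntermediateField ℚ QBar} [NumberField K] {M : IntermediateField K QBar}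
  [NumberField M]

private theorem lo_of {l : Pl M} {p : Pl K} (h : Over l p) :
    l.asIdeal.LiesOver p.asIdeal := ⟨h.symm⟩

private theorem nm_eq {l : Pl M} {p : Pl K} (h : Over l p) :
    nm l = nm p ^ l.asIdeal.inertiaDeg (𝓞 K) := by
  have := lo_of h
  exact (Ideal.absNorm_pow_inertiaDeg p.asIdeal l.asIdeal).symm

/-- the fundamental inequality for a set of primes over `p` -/
private theorem sum_le (p : Pl K) (S : Finset (Pl M)) (hS : ∀ l ∈ S, Over l p) :
    ∑ l ∈ S, l.asIdeal.inertiaDeg (𝓞 K) ≤ Module.finrank K M := by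
  rw [← Ideal.sum_ramification_inertia (R := 𝓞 K) (𝓞 M) K M p.ne_bot]
  have hinj : Set.InjOn (fun l : Pl M => l.asIdeal) S := fun _ _ _ _ h => HeightOneSpectrum.ext h
  have h1 : ∑ l ∈ S, l.asIdeal.inertiaDeg (𝓞 K) =
      ∑ P ∈ S.image (fun l : Pl M => l.asIdeal), P.inertiaDeg (𝓞 K) :=
    (Finset.sum_image (f := fun P : Ideal (𝓞 M) => P.inertiaDeg (𝓞 K)) hinj).symm
  rw [h1]
  have hsub : S.image (fun l : Pl M => l.asIdeal) ⊆
      IsDedekindDomain.primesOverFinset p.asIdeal (𝓞 M) := by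
    intro P hP
    obtain ⟨l, hl, rfl⟩ := Finset.mem_image.1 hP
    exact (IsDedekindDomain.mem_primesOverFinset_iff p.ne_bot _).2 ⟨l.isPrime, lo_of (hS l hl)⟩
  refine (Finset.sum_le_sum fun P hP => ?_).trans (Finset.sum_le_sum_of_subset hsub)
  obtain ⟨l, hl, rfl⟩ := Finset.mem_image.1 hP
  have := lo_of (hS l hl)
  have hmax : l.asIdeal.IsMaximal := l.isMaximal
  have hmax' : p.asIdeal.IsMaximal := p.isMaximal
  rw [Ideal.inertiaDeg'_eq_inertiaDeg p.asIdeal l.asIdeal]
  exact Nat.le_mul_of_pos_left _ (Nat.pos_of_ne_zero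
    (Ideal.IsDedekindDomain.ramificationIdx'_ne_zero_of_liesOver l.asIdeal p.ne_bot))

omit [NumberField K] [NumberField M] in
theorem geo_deg {τ : Gal(M/K)} {ω : M} (H : H38.WM.Om τ ω) : Module.finrank K M ≤ 2 := by
  have hω' : IsPrimitiveRoot (ω : QBar) 3 :=
    H.prim.map_of_injective (f := algebraMap M QBar) (algebraMap M QBar).injective
  have hg : (ω : QBar) ^ 2 + (ω : QBar) + 1 = 0 := by
    have h1 := hω'.geom_sum_eq_zero (by norm_num)
    rw [Finset.sum_range_succ, Finset.sum_range_succ, Finset.sum_range_one, pow_zero,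
      pow_one] at h1
    linear_combination h1
  have hint : IsIntegral K (ω : QBar) := Algebra.IsIntegral.isIntegral _
  have hd : Module.finrank K (IntermediateField.adjoin K {(ω : QBar)}) =
      (minpoly K (ω : QBar)).natDegree := IntermediateField.adjoin.finrank hint
  rw [← H.top, hd]
  have hp : ((Polynomial.X ^ 2 + Polynomial.X + 1 : Polynomial K)).natDegree = 2 := by
    compute_degree!
  have hp0 : (Polynomial.X ^ 2 + Polynomial.X + 1 : Polynomial K) ≠ 0 := by
    intro h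
    rw [h, Polynomial.natDegree_zero] at hp
    omega
  rw [← hp]
  refine Polynomial.natDegree_le_of_dvd (minpoly.dvd K _ ?_) hp0
  rw [map_add, map_add, map_pow, Polynomial.aeval_X, map_one]
  exact hg

theorem cj_cj {τ : Gal(M/K)} {ω : M} (H : H38.WM.Om τ ω) (x : Mˣ) : cj τ (cj τ x) = x := by
  apply Units.ext
  exact H38.WM.om_inv τ ω H (x : M)

theorem tv_tv {τ : Gal(M/K)} {ω : M} (H : H38.WM.Om τ ω) (l : Pl M) : tv τ (tv τ l) = l := by
  apply HeightOneSpectrum.ext
  ext a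
  rw [tv_mem, tv_mem]
  have h : τ • τ • a = a := by
    apply NumberField.RingOfIntegers.ext
    exact H38.WM.om_inv τ ω H (a : M)
  rw [h]

theorem tv_ord' (τ : Gal(M/K)) (l : Pl M) (x : Mˣ) : ord (tv τ l) x = ord l (cj τ x) :=
  tv_ord τ l x

theorem tv_over_iff {τ : Gal(M/K)} {ω : M} (H : H38.WM.Om τ ω) (l : Pl M) (p : Pl K) :
    Over (tv τ l) p ↔ Over l p := by
  refine ⟨fun h => ?_, tv_over τ l p⟩
  have h1 := tv_over τ _ p h
  rwa [tv_tv H] at h1

theorem so_tv {τ : Gal(M/K)} {ω : M} (H : H38.WM.Om τ ω) {D : RD0 M 3 ω} {S : Finset (Pl K)}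
    (hD : SO D S) (w : Pl M) : tv τ w ∈ D.S0 ↔ w ∈ D.S0 := by
  rw [hD, hD]
  simp only [tv_over_iff H]

theorem geo_nm {τ : Gal(M/K)} {ω : M} (H : H38.WM.Om τ ω) {v : Pl M} {l : Pl K}
    (hv : Over v l) (hne : tv τ v ≠ v) : nm v = nm l := by
  have h3 := sum_le l {tv τ v, v} (fun w hw => by
    rcases Finset.mem_insert.1 hw with rfl | hw
    · exact tv_over τ v l hv
    · rw [Finset.mem_singleton.1 hw]
      exact hv)
  rw [Finset.sum_pair hne] at h3
  have h4 := geo_deg H
  have h5 := Ideal.inertiaDeg_pos (tv τ v).asIdeal (𝓞 K)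
  have h6 := Ideal.inertiaDeg_pos v.asIdeal (𝓞 K)
  have h7 : v.asIdeal.inertiaDeg (𝓞 K) = 1 := by omega
  rw [nm_eq hv, h7, pow_one]

theorem geo_eq {τ : Gal(M/K)} {ω : M} (H : H38.WM.Om τ ω) {v w : Pl M} {l : Pl K}
    (hv : Over v l) (hw : Over w l) (hne : tv τ v ≠ v) : w = v ∨ w = tv τ v := by
  by_contra hc
  rw [not_or] at hc
  have h3 := sum_le l {w, tv τ v, v} (fun u hu => by
    rcases Finset.mem_insert.1 hu with rfl | hu
    · exact hw
    · rcases Finset.mem_insert.1 hu with rfl | hu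
      · exact tv_over τ v l hv
      · rw [Finset.mem_singleton.1 hu]
        exact hv)
  have hnot : w ∉ ({tv τ v, v} : Finset (Pl M)) := by
    rw [Finset.mem_insert, Finset.mem_singleton]
    rintro (h | h)
    · exact hc.2 h
    · exact hc.1 h
  rw [Finset.sum_insert hnot, Finset.sum_pair hne] at h3
  have h4 := geo_deg H
  have h5 := Ideal.inertiaDeg_pos (tv τ v).asIdeal (𝓞 K)
  have h6 := Ideal.inertiaDeg_pos v.asIdeal (𝓞 K)
  have h7 := Ideal.inertiaDeg_pos w.asIdeal (𝓞 K)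
  omega

theorem geo_f {τ : Gal(M/K)} {ω : M} (H : H38.WM.Om τ ω) {w : Pl M} {l : Pl K}
    (hw : Over w l) : nm w = nm l ^ 1 ∨ nm w = nm l ^ 2 := by
  have h3 := sum_le l {w} (fun u hu => by
    rw [Finset.mem_singleton.1 hu]
    exact hw)
  rw [Finset.sum_singleton] at h3
  have h4 := geo_deg H
  have h7 := Ideal.inertiaDeg_pos w.asIdeal (𝓞 K)
  have h8 : w.asIdeal.inertiaDeg (𝓞 K) = 1 ∨ w.asIdeal.inertiaDeg (𝓞 K) = 2 := by omega
  rcases h8 with h | h
  · left
    rw [nm_eq hw, h]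
  · right
    rw [nm_eq hw, h]

end H48.M3
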