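import Pool.Agent.H48.M3.Ext
import Pool.Agent.H63.MC.CTyp

/-!
# M3: the normal form

`uu_ex`: there are representatives `UU`. `nf_ord`: the orders of `yy a`. `nf_cj`: `yy a τ(yy a) = 1`. `nf_ex`: every `x` with `x τ(x)` a cube is `ε yy a z ^ 3`, `ε ∈ U`, `a ∈ AA`.
`nf_inj`: `ε` and `a` are determined by the Kummer character of `ε yy a`.
-/

set_option autoImplicit false

open scoped NumberField Classical
open IsDedekindDomain H38.ML H63.MA

noncomputable section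

namespace H48.M3

open H48.AQ

variable {K : IntermediateField ℚ QBar} [NumberField K] {M : IntermediateField K QBar}
  [NumberField M] {τ : Gal(M/K)} {ω : M}

private theorem p3 : Nat.Prime 3 := Nat.prime_three

omit [NumberField K] in
theorem uu_ex (D : RD0 M 3 ω) (τ : Gal(M/K)) : ∃ U : Finset Mˣ, UU D τ U := by
  obtain ⟨U, h1, h2, h3⟩ := unit_reps2 (K := M) p3 D.S0
  have hone : TUnit D.S0 (1 : Mˣ) := fun v _ => ord_one v
  obtain ⟨V, hV⟩ : ∃ V : Finset Mˣ, V = U.filter fun u => (∃ y : Mˣ, u * cj τ u = y ^ 3) ∧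
    ¬ ∃ y : Mˣ, u = y ^ 3 := ⟨_, rfl⟩
  have hcube : ∀ y : Mˣ, ∃ z : Mˣ, y ^ 3 * cj τ (y ^ 3) = z ^ 3 := by
    intro y
    exact ⟨y * cj τ y, by rw [map_pow, mul_pow]⟩
  refine ⟨insert 1 V, Finset.mem_insert_self _ _, ?_, ?_, ?_, ?_⟩
  · intro u hu
    rcases Finset.mem_insert.1 hu with rfl | hu
    · exact hone
    · rw [hV, Finset.mem_filter] at hu
      exact h1 u hu.1
  · intro u hu
    rcases Finset.mem_insert.1 hu with rfl | hu
    · exact ⟨1, by rw [map_one, one_pow, mul_one]⟩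
    · rw [hV, Finset.mem_filter] at hu
      exact hu.2.1
  · rintro x hx ⟨y, hy⟩
    obtain ⟨u, hu, z, hz⟩ := h2 x hx
    by_cases h : ∃ w : Mˣ, u = w ^ 3
    · obtain ⟨w, hw⟩ := h
      exact ⟨1, Finset.mem_insert_self _ _, w * z, by rw [one_mul, hz, hw, mul_pow]⟩
    · refine ⟨u, Finset.mem_insert_of_mem ?_, z, hz⟩
      rw [hV, Finset.mem_filter]
      refine ⟨hu, ⟨y * (z * cj τ z)⁻¹, ?_⟩, h⟩
      rw [mul_pow, inv_pow, mul_pow, ← hy, hz, map_mul, map_pow]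
      rw [eq_mul_inv_iff_mul_eq]
      exact mul_mul_mul_comm u (cj τ u) (z ^ 3) (cj τ z ^ 3)
  · intro u hu u' hu' y hy
    rcases Finset.mem_insert.1 hu with rfl | hu
    · rcases Finset.mem_insert.1 hu' with rfl | hu'
      · rfl
      · exfalso
        rw [hV, Finset.mem_filter] at hu'
        refine hu'.2.2 ⟨y⁻¹, ?_⟩
        rw [inv_pow, eq_inv_iff_mul_eq_one]
        exact hy.symm
    · rcases Finset.mem_insert.1 hu' with rfl | hu'
      · exfalso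
        rw [hV, Finset.mem_filter] at hu
        refine hu.2.2 ⟨y, ?_⟩
        rw [hy, one_mul]
      · rw [hV, Finset.mem_filter] at hu hu'
        exact h3 u hu.1 u' hu'.1 y hy

theorem nf_cj (H : H38.WM.Om τ ω) (D : RD0 M 3 ω) (a : Finset (Pl M)) :
    yy D τ a * cj τ (yy D τ a) = 1 := by
  unfold yy
  rw [map_prod, ← Finset.prod_mul_distrib]
  refine Finset.prod_eq_one fun v _ => ?_
  have h : cj τ (cj τ (D.pi v)) = D.pi v := by
    apply Units.ext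
    exact H38.WM.om_inv τ ω H _
  rw [map_mul, map_inv, h, mul_assoc, inv_mul_cancel_left, mul_inv_cancel]

theorem cu_mul (H : H38.WM.Om τ ω) (D : RD0 M 3 ω) {ε : Mˣ} (hε : ∃ y : Mˣ, ε * cj τ ε = y ^ 3)
    (a : Finset (Pl M)) : ∃ y : Mˣ, ε * yy D τ a * cj τ (ε * yy D τ a) = y ^ 3 := by
  obtain ⟨y, hy⟩ := hε
  refine ⟨y, ?_⟩
  rw [map_mul, mul_mul_mul_comm, nf_cj H, mul_one, hy]

omit [NumberField K] in
theorem ord_pr (D : RD0 M 3 ω) {a : Finset (Pl M)} (ha : ∀ v ∈ a, v ∉ D.S0) (v : Pl M)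
    (hv : v ∉ D.S0) : ord v (∏ w ∈ a, D.pi w) = if v ∈ a then 1 else 0 := by
  rw [ord_prod]
  by_cases h : v ∈ a
  · rw [if_pos h, Finset.sum_eq_single v]
    · exact D.pi_self v hv
    · intro w hw hne
      exact D.pi_ne w v (ha w hw) hv hne.symm
    · intro h'
      exact absurd h h'
  · rw [if_neg h]
    refine Finset.sum_eq_zero fun w hw => ?_
    refine D.pi_ne w v (ha w hw) hv ?_
    rintro rfl
    exact h hw

theorem yy_eq (D : RD0 M 3 ω) (τ : Gal(M/K)) (a : Finset (Pl M)) :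
    yy D τ a = (∏ v ∈ a, D.pi v) * (cj τ (∏ v ∈ a, D.pi v))⁻¹ := by
  unfold yy
  rw [Finset.prod_mul_distrib, Finset.prod_inv_distrib, map_prod]

theorem nf_ord (H : H38.WM.Om τ ω) (D : RD0 M 3 ω) {S : Finset (Pl K)} (hD : SO D S)
    {a : Finset (Pl M)} (ha : ∀ v ∈ a, v ∉ D.S0) (v : Pl M) (hv : v ∉ D.S0) :
    ord v (yy D τ a) = (if v ∈ a then 1 else 0) - (if tv τ v ∈ a then 1 else 0) := by
  have hv' : tv τ v ∉ D.S0 := fun h => hv ((so_tv H hD v).1 h)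
  rw [yy_eq, ord_mul, ord_inv, ← tv_ord', ord_pr D ha v hv, ord_pr D ha _ hv']
  ring

theorem nf_ex (H : H38.WM.Om τ ω) (D : RD0 M 3 ω) {S : Finset (Pl K)} (hD : SO D S)
    {U : Finset Mˣ} (hU : UU D τ U) (x : Mˣ) (hx : ∃ y : Mˣ, x * cj τ x = y ^ 3) :
    ∃ ε ∈ U, ∃ a ∈ AA D τ, ∃ z : Mˣ, x = ε * yy D τ a * z ^ 3 := by
  have hfin := finite_ord x
  obtain ⟨a, ha⟩ : ∃ a : Finset (Pl M), a = hfin.toFinset.filter
    (fun v => v ∉ D.S0 ∧ ord v x % 3 = 1) := ⟨_, rfl⟩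
  have ha' : ∀ v, v ∈ a ↔ v ∉ D.S0 ∧ ord v x % 3 = 1 := by
    intro v
    rw [ha, Finset.mem_filter, Set.Finite.mem_toFinset]
    constructor
    · exact fun h => h.2
    · refine fun h => ⟨?_, h⟩
      intro h0
      rw [h0] at h
      exact absurd h.2 (by norm_num)
  have hsum : ∀ v, (ord v x + ord (tv τ v) x) % 3 = 0 := by
    intro v
    obtain ⟨y, hy⟩ := hx
    have h1 := congrArg (ord v) hy
    rw [ord_mul, ← tv_ord', ord_pow] at h1
    rw [h1]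
    push_cast
    omega
  have hA : a ∈ AA D τ := by
    intro v hv
    refine ⟨((ha' v).1 hv).1, fun h => ?_⟩
    have h1 := ((ha' v).1 hv).2
    have h2 := ((ha' _).1 h).2
    have h3 := hsum v
    omega
  obtain ⟨g, hg⟩ : ∃ g : Mˣ, g = yy D τ a := ⟨_, rfl⟩
  have hdv : ∀ v, v ∉ D.S0 → ((3 : ℕ) : ℤ) ∣ ord v (x * g⁻¹) := by
    intro v hv
    rw [ord_mul, ord_inv, hg, nf_ord H D hD (fun w hw => (hA w hw).1) v hv]
    have hv' : tv τ v ∉ D.S0 := fun h => hv ((so_tv H hD v).1 h)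
    have h3 := hsum v
    by_cases h1 : v ∈ a
    · have h2 := (hA v h1).2
      have h4 := ((ha' v).1 h1).2
      rw [if_pos h1, if_neg h2]
      push_cast
      omega
    · have h4 : ord v x % 3 ≠ 1 := fun h => h1 ((ha' v).2 ⟨hv, h⟩)
      by_cases h2 : tv τ v ∈ a
      · have h5 := ((ha' _).1 h2).2
        rw [if_neg h1, if_pos h2]
        push_cast
        omega
      · have h5 : ord (tv τ v) x % 3 ≠ 1 := fun h => h2 ((ha' _).2 ⟨hv', h⟩)
        rw [if_neg h1, if_neg h2]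
        push_cast
        omega
  obtain ⟨u₀, y, hu₀, hy⟩ := unit_of_ord p3 D (x * g⁻¹) hdv
  have hcu : ∃ w : Mˣ, u₀ * cj τ u₀ = w ^ 3 := by
    obtain ⟨w, hw⟩ := hx
    refine ⟨w * (y * cj τ y)⁻¹, ?_⟩
    have h1 : u₀ = x * g⁻¹ * (y ^ 3)⁻¹ := by rw [hy, mul_inv_cancel_right]
    have h2 : g * cj τ g = 1 := by
      rw [hg]
      exact nf_cj H D a
    rw [h1, map_mul, map_mul, map_inv, map_inv, map_pow, mul_pow, inv_pow, mul_pow, ← hw]
    have h3 : x * g⁻¹ * (y ^ 3)⁻¹ * (cj τ x * (cj τ g)⁻¹ * (cj τ y ^ 3)⁻¹) =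
        (x * cj τ x) * (g * cj τ g)⁻¹ * (y ^ 3 * cj τ y ^ 3)⁻¹ := by
      rw [mul_inv, mul_inv]
      simp only [mul_assoc, mul_left_comm, mul_comm]
    rw [h3, h2, inv_one, mul_one]
  obtain ⟨ε, hε, z, hz⟩ := hU.ex u₀ hu₀ hcu
  refine ⟨ε, hε, a, hA, z * y, ?_⟩
  rw [← hg]
  have h1 : x = u₀ * y ^ 3 * g := by rw [← hy, inv_mul_cancel_right]
  rw [h1, hz, mul_pow, mul_assoc ε, mul_right_comm]

/-- two Kummer characters are equal iff the quotient is a cube -/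
theorem kc_eq_iff (hω : IsPrimitiveRoot ω 3) (x y : Mˣ) :
    (∀ σ : Gal(QBar/M), kc 3 ω QBar x σ = kc 3 ω QBar y σ) ↔ ∃ z : Mˣ, x = y * z ^ 3 := by
  have hcl := H48.T3.alg_cl M
  constructor
  · intro h
    have h1 : ∀ σ : Gal(QBar/M), kk 3 ω (x * y⁻¹) σ = 0 := by
      intro σ
      have h3 : kk 3 ω x σ = kk 3 ω y σ := congrArg Multiplicative.toAdd (h σ)
      have h4 := kk_mul_arg p3 hω (x * y⁻¹) y σ
      rw [inv_mul_cancel_right, h3] at h4
      exact left_eq_add.1 ((h4.trans (add_comm _ _)))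
    obtain ⟨z, hz⟩ := (kk_eq_zero_iff (Ω := QBar) p3 hω _).1 h1
    exact ⟨z, by rw [hz, mul_comm x, mul_inv_cancel_left]⟩
  · rintro ⟨z, rfl⟩ σ
    have h5 : kk 3 ω (y * z ^ 3) σ = kk 3 ω y σ := by
      rw [kk_mul_arg p3 hω]
      have h6 : kk 3 ω (z ^ 3) σ = 0 :=
        (kk_eq_zero_iff (Ω := QBar) p3 hω (z ^ 3)).2 ⟨z, rfl⟩ σ
      rw [h6, add_zero]
    exact Multiplicative.toAdd.injective h5

theorem nf_inj (H : H38.WM.Om τ ω) (D : RD0 M 3 ω) {S : Finset (Pl K)} (hD : SO D S)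
    {U : Finset Mˣ} (hU : UU D τ U) {ε ε' : Mˣ} (hε : ε ∈ U) (hε' : ε' ∈ U)
    {a a' : Finset (Pl M)} (ha : a ∈ AA D τ) (ha' : a' ∈ AA D τ) (z : Mˣ)
    (h : ε * yy D τ a = ε' * yy D τ a' * z ^ 3) : ε = ε' ∧ a = a' := by
  have h3 : ∀ v, v ∉ D.S0 → (v ∈ a ↔ v ∈ a') := by
    intro v hv
    have h4 := congrArg (ord v) h
    rw [ord_mul, ord_mul, ord_mul, ord_pow, hU.tu ε hε v hv, hU.tu ε' hε' v hv,
      nf_ord H D hD (fun w hw => (ha w hw).1) v hv,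
      nf_ord H D hD (fun w hw => (ha' w hw).1) v hv] at h4
    push_cast at h4
    by_cases c1 : v ∈ a
    · have c2 := (ha v c1).2
      rw [if_pos c1, if_neg c2] at h4
      by_cases c3 : v ∈ a'
      · exact ⟨fun _ => c3, fun _ => c1⟩
      · exfalso
        rw [if_neg c3] at h4
        by_cases c4 : tv τ v ∈ a'
        · rw [if_pos c4] at h4
          omega
        · rw [if_neg c4] at h4
          omega
    · by_cases c3 : v ∈ a'
      · exfalso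
        have c4 := (ha' v c3).2
        rw [if_neg c1, if_pos c3, if_neg c4] at h4
        by_cases c2 : tv τ v ∈ a
        · rw [if_pos c2] at h4
          omega
        · rw [if_neg c2] at h4
          omega
      · exact ⟨fun h => absurd h c1, fun h => absurd h c3⟩
  have haa : a = a' := by
    ext v
    by_cases hv : v ∈ D.S0
    · exact ⟨fun h1 => absurd hv (ha v h1).1, fun h1 => absurd hv (ha' v h1).1⟩
    · exact h3 v hv
  refine ⟨?_, haa⟩
  refine hU.un ε hε ε' hε' z ?_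
  rw [haa, mul_right_comm] at h
  exact mul_right_cancel h

/-- the characters `CH (ε yy a)` are all characters of finite type -/
theorem nf_ch (H : H38.WM.Om τ ω) (D : RD0 M 3 ω) {S : Finset (Pl K)} (hD : SO D S)
    {U : Finset Mˣ} (hU : UU D τ U) (χ : Gal(QBar/K) →* Multiplicative (ZMod 3)) (hχ : FT χ) :
    ∃ ε ∈ U, ∃ a ∈ AA D τ, χ = CH M ω (ε * yy D τ a) := by
  have hcl := H48.T3.alg_cl M
  have hfd : FiniteDimensional K M := FiniteDimensional.right ℚ K M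
  obtain ⟨x, hx⟩ := kc_all (Ω := QBar) p3 H.prim (rsM M χ) (rsM_ft M χ hχ)
  have hx1 : ∀ σ : Gal(QBar/M), χ (σ.restrictScalars K) = kc 3 ω QBar x σ := by
    intro σ
    rw [← hx]
    rfl
  have hcu := H38.WM.eqv τ ω H χ x hx1
  obtain ⟨ε, hε, a, ha, z, hz⟩ := nf_ex H D hD hU x hcu
  refine ⟨ε, hε, a, ha, ?_⟩
  refine ch_eq H _ (cu_mul H D (hU.cu ε hε) a) χ fun σ => ?_
  rw [hx1]
  exact (kc_eq_iff H.prim _ _).2 ⟨z, hz⟩ σ

theorem nf_uni (H : H38.WM.Om τ ω) (D : RD0 M 3 ω) {S : Finset (Pl K)} (hD : SO D S)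
    {U : Finset Mˣ} (hU : UU D τ U) {ε ε' : Mˣ} (hε : ε ∈ U) (hε' : ε' ∈ U)
    {a a' : Finset (Pl M)} (ha : a ∈ AA D τ) (ha' : a' ∈ AA D τ)
    (h : CH M ω (ε * yy D τ a) = CH M ω (ε' * yy D τ a')) : ε = ε' ∧ a = a' := by
  obtain ⟨z, hz⟩ := (kc_eq_iff H.prim (ε * yy D τ a) (ε' * yy D τ a')).1 (by
    intro σ
    rw [← (ch_sp H _ (cu_mul H D (hU.cu ε hε) a)).2, ← (ch_sp H _ (cu_mul H D (hU.cu ε' hε') a')).2,
      h])
  exact nf_inj H D hD hU hε hε' ha ha' z hz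

theorem nf_one (H : H38.WM.Om τ ω) (D : RD0 M 3 ω) {S : Finset (Pl K)} (hD : SO D S)
    {U : Finset Mˣ} (hU : UU D τ U) {ε : Mˣ} (hε : ε ∈ U) {a : Finset (Pl M)} (ha : a ∈ AA D τ) :
    CH M ω (ε * yy D τ a) = 1 ↔ ε = 1 ∧ a = ∅ := by
  have h0 : (∅ : Finset (Pl M)) ∈ AA D τ := fun v hv => absurd hv (Finset.notMem_empty v)
  have h1 : CH M ω ((1 : Mˣ) * yy D τ ∅) = 1 := by
    refine (ch_eq H _ (cu_mul H D (hU.cu 1 hU.one) ∅) 1 fun σ => ?_).symm
    have hcl := H48.T3.alg_cl M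
    have h2 : (1 : Mˣ) * yy D τ ∅ = 1 := by
      unfold yy
      rw [Finset.prod_empty, mul_one]
    have h3 : kk 3 ω ((1 : Mˣ) * yy D τ ∅) σ = 0 :=
      (kk_eq_zero_iff (Ω := QBar) p3 H.prim _).2 ⟨1, by rw [h2, one_pow]⟩ σ
    rw [MonoidHom.one_apply]
    exact Multiplicative.toAdd.injective h3.symm
  constructor
  · intro h
    exact nf_uni H D hD hU hε hU.one ha h0 (h.trans h1.symm)
  · rintro ⟨rfl, rfl⟩
    exact h1

end H48.M3
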