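import Pool.Agent.H48.M3.Nf
import Pool.Agent.H48.CR.Lc
import Pool.Agent.H77.AQ.Bas
import Pool.Agent.H63.BU.UOrd

/-!
# M3: ramification and values of the characters `CH (ε yy a)`

For `l ∉ S`: `χ` is ramified at `l` iff a prime of `a` lies over `l`; `cf = nr a`; if no prime of `a` lies over `l` then `mu = ep θ + ep (-θ)`, `θ = lg w (ε yy a)`
for any prime `w` over `l`; if one does, `mu = -1`.
-/

set_option autoImplicit false

open scoped NumberField Classical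
open IsDedekindDomain H38.ML H63.MA

noncomputable section

namespace H48.M3

open H48.AQ

variable {K : IntermediateField ℚ QBar} [NumberField K] {M : IntermediateField K QBar}
  [NumberField M] {τ : Gal(M/K)} {ω : M}

private theorem p3 : Nat.Prime 3 := Nat.prime_three

private theorem cube3 (x : Multiplicative (ZMod 3)) : x = (x * x) * (x * x) := by
  have h : ∀ a : ZMod 3, a = (a + a) + (a + a) := by decide
  exact congrArg Multiplicative.ofAdd (h (Multiplicative.toAdd x))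

theorem pl_M (M : IntermediateField K QBar) [NumberField M] (Q : DP K QBar) (v : Pl K) :
    ∃ w : Pl M, (Q.P v).under (𝓞 M) = w.asIdeal ∧ Over w v := by
  have hover : ((Q.P v).under (𝓞 M)).comap (algebraMap (𝓞 K) (𝓞 M)) = v.asIdeal := by
    rw [← Q.under v]
    exact Ideal.ext fun a => Iff.rfl
  have hne : (Q.P v).under (𝓞 M) ≠ ⊥ := by
    intro h
    apply v.ne_bot
    rw [← hover, h, ← RingHom.ker_eq_comap_bot]
    exact (RingHom.injective_iff_ker_eq_bot _).mp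
      (NumberField.RingOfIntegers.algebraMap.injective K M)
  have hp := Q.prime v
  exact ⟨⟨(Q.P v).under (𝓞 M), Ideal.IsPrime.comap _, hne⟩, rfl, hover⟩

/-- a character with Kummer class `x` over `M` is unramified at `l` if the orders of `x` over `l` are divisible by 3 -/
theorem rm_unr (H : H38.WM.Om τ ω) (Q : DP K QBar) (χ : Gal(QBar/K) →* Multiplicative (ZMod 3))
    (x : Mˣ) (hx : ∀ σ : Gal(QBar/M), χ (σ.restrictScalars K) = kc 3 ω QBar x σ) (l : Pl K)
    (hl : ¬ Above 3 l) (ho : ∀ w : Pl M, Over w l → ((ord w x : ℤ) : ZMod 3) = 0) :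
    ∀ σ ∈ (Q.P l).inertia Gal(QBar/K), χ σ = 1 := by
  have hcl := H48.T3.alg_cl M
  intro σ hσ
  obtain ⟨w, hw, hwl⟩ := pl_M M Q l
  obtain ⟨π, hπ⟩ := exists_unif w
  have hw3 : ¬ Above 3 w := fun h => hl ((above_over hwl 3).1 h)
  obtain ⟨L, hL⟩ := H63.BU.uord_at QBar p3 H.prim hw3 hπ (Q.P l) (Q.prime l) hw
  obtain ⟨σ', hσ'⟩ := H38.WM.om_sq τ ω H σ
  have h1 : σ' ∈ L.P.inertia Gal(QBar/M) := by
    rw [hL]
    intro y
    have h2 : σ' • y = (σ * σ) • y := by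
      rw [← hσ']
      rfl
    rw [h2, mul_smul]
    have h3 := (Q.P l).add_mem (hσ (σ • y)) (hσ y)
    rwa [sub_add_sub_cancel] at h3
  have h2 := ld_kk p3 H.prim hw3 hπ L σ' h1 x
  rw [ho w hwl, zero_mul] at h2
  have h3 : χ σ * χ σ = 1 := by
    rw [← map_mul, ← hσ', hx]
    exact Multiplicative.toAdd.injective h2
  rw [cube3 (χ σ), h3, mul_one]

variable (H : H38.WM.Om τ ω) (D : RD0 M 3 ω) {S : Finset (Pl K)} (hD : SO D S)

include hD in
theorem so_above {l : Pl K} (hl : l ∉ S) : ¬ Above 3 l := by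
  intro h
  have h1 : Over (pw M l) l := pw_over l
  obtain ⟨l', hl', h2⟩ := (hD _).1 (D.above _ ((above_over h1 3).2 h))
  exact hl (below_unique h1 h2 ▸ hl')

include hD in
theorem so_not {l : Pl K} (hl : l ∉ S) {w : Pl M} (hw : Over w l) : w ∉ D.S0 := by
  intro h
  obtain ⟨l', hl', h2⟩ := (hD w).1 h
  exact hl (below_unique hw h2 ▸ hl')

include H hD in
/-- a prime of `K` outside `S` is ramified iff it is below `a` -/
theorem rm_iff (Q : DP K QBar) {ε : Mˣ} (hε : TUnit D.S0 ε) (hc : ∃ y : Mˣ, ε * cj τ ε = y ^ 3)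
    {a : Finset (Pl M)} (ha : a ∈ AA D τ) (l : Pl K) (hl : l ∉ S) :
    (∃ σ ∈ (Q.P l).inertia Gal(QBar/K), CH M ω (ε * yy D τ a) σ ≠ 1) ↔ Bl a l := by
  obtain ⟨hft, hχ⟩ := ch_sp H (ε * yy D τ a) (cu_mul H D hc a)
  have hl3 := so_above D hD hl
  constructor
  · rintro ⟨σ, hσ, hne⟩
    by_contra hb
    apply hne
    refine rm_unr H Q _ _ hχ l hl3 ?_ σ hσ
    intro w hw
    have hwS := so_not D hD hl hw
    have h1 : w ∉ a := fun h => hb ⟨w, h, hw⟩
    have h2 : tv τ w ∉ a := fun h => hb ⟨tv τ w, h, tv_over τ w l hw⟩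
    rw [ord_mul, hε w hwS, nf_ord H D hD (fun v hv => (ha v hv).1) w hwS, if_neg h1, if_neg h2]
    norm_num
  · rintro ⟨v, hv, hvl⟩
    by_contra hb
    push Not at hb
    have hvS := so_not D hD hl hvl
    have hw3 : ¬ Above 3 v := fun h => hl3 ((above_over hvl 3).1 h)
    have h1 := H48.CR.lc_ord M H.prim Q (CH M ω (ε * yy D τ a)) (ε * yy D τ a) (fun σ => by
      rw [hχ σ]
      rfl) l hb v hvl hw3
    rw [ord_mul, hε v hvS, nf_ord H D hD (fun v hv => (ha v hv).1) v hvS, if_pos hv,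
      if_neg (ha v hv).2] at h1
    revert h1
    decide

include H hD in
theorem rm_mem (Q : DP K QBar) {ε : Mˣ} (hε : TUnit D.S0 ε) (hc : ∃ y : Mˣ, ε * cj τ ε = y ^ 3)
    {a : Finset (Pl M)} (ha : a ∈ AA D τ) (l : Pl K) :
    l ∈ H38.MT.rf Q S (CH M ω (ε * yy D τ a)) ↔ Bl a l := by
  obtain ⟨hft, -⟩ := ch_sp H (ε * yy D τ a) (cu_mul H D hc a)
  rw [H38.MT.ba_mem Q S hft]
  constructor
  · rintro ⟨hl, h⟩
    exact (rm_iff H D hD Q hε hc ha l hl).1 h
  · intro h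
    have hl : l ∉ S := by
      intro hl
      obtain ⟨v, hv, hvl⟩ := h
      exact (ha v hv).1 ((hD v).2 ⟨l, hl, hvl⟩)
    exact ⟨hl, (rm_iff H D hD Q hε hc ha l hl).2 h⟩

include H hD in
theorem rm_cf (Q : DP K QBar) {ε : Mˣ} (hε : TUnit D.S0 ε) (hc : ∃ y : Mˣ, ε * cj τ ε = y ^ 3)
    {a : Finset (Pl M)} (ha : a ∈ AA D τ) :
    H38.MT.cf Q S (CH M ω (ε * yy D τ a)) = nr a := by
  have hb : ∀ w : Pl M, ∃ l : Pl K, Over w l := fun w => exists_below w
  choose b hb using hb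
  have hsp : ∀ v ∈ a, tv τ v ≠ v := by
    intro v hv h
    have h1 := (ha v hv).2
    rw [h] at h1
    exact h1 hv
  have himg : H38.MT.rf Q S (CH M ω (ε * yy D τ a)) = a.image b := by
    ext l
    rw [rm_mem H D hD Q hε hc ha l, Finset.mem_image]
    constructor
    · rintro ⟨v, hv, hvl⟩
      exact ⟨v, hv, below_unique (hb v) hvl⟩
    · rintro ⟨v, hv, rfl⟩
      exact ⟨v, hv, hb v⟩
  unfold H38.MT.cf
  rw [himg]
  unfold nr
  rw [Finset.prod_image]
  · refine Finset.prod_congr rfl fun v hv => ?_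
    rw [geo_nm H (hb v) (hsp v hv)]
  · intro v hv v' hv' h
    have h1 : Over v' (b v) := by
      have h2 := hb v'
      rw [← show b v = b v' from h] at h2
      exact h2
    rcases geo_eq H (hb v) h1 (hsp v hv) with h2 | h2
    · exact h2.symm
    · exfalso
      rw [h2] at hv'
      exact (ha v hv).2 hv'

/-- `mu` at a ramified prime -/
theorem mu_ram (Q : DP K QBar) (χ : Gal(QBar/K) →* Multiplicative (ZMod 3)) (l : Pl K)
    (h : ∃ σ ∈ (Q.P l).inertia Gal(QBar/K), χ σ ≠ 1) : H67.AQ.mu Q χ l = -1 := by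
  unfold H67.AQ.mu
  rw [if_neg]
  intro hs
  obtain ⟨σ, hσ, hne⟩ := h
  exact hne (H38.MT.ba_in Q hs σ hσ)

private theorem ep_two (a : ZMod 3) : ep 3 (2 * a) + ep 3 (-(2 * a)) = ep 3 a + ep 3 (-a) := by
  have h1 : (2 : ZMod 3) * a = -a := by
    revert a
    decide
  rw [h1, neg_neg, add_comm]

include H hD in
/-- the value of `mu` at a prime outside `S` -/
theorem mu_val (Q : DP K QBar) {ε : Mˣ} (hε : TUnit D.S0 ε) (hc : ∃ y : Mˣ, ε * cj τ ε = y ^ 3)
    {a : Finset (Pl M)} (ha : a ∈ AA D τ) (l : Pl K) (hl : l ∉ S) (w : Pl M) (hw : Over w l) :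
    ((H67.AQ.mu Q (CH M ω (ε * yy D τ a)) l : ℝ) : ℂ) = if Bl a l then -1 else
      ep 3 (lg 3 ω w (ε * yy D τ a)) + ep 3 (-lg 3 ω w (ε * yy D τ a)) := by
  obtain ⟨hft, hχ⟩ := ch_sp H (ε * yy D τ a) (cu_mul H D hc a)
  by_cases hb : Bl a l
  · rw [if_pos hb, mu_ram Q _ l ((rm_iff H D hD Q hε hc ha l hl).2 hb)]
    norm_num
  · rw [if_neg hb]
    have hun : ∀ σ ∈ (Q.P l).inertia Gal(QBar/K), CH M ω (ε * yy D τ a) σ = 1 := by
      intro σ hσ
      by_contra h
      exact hb ((rm_iff H D hD Q hε hc ha l hl).1 ⟨σ, hσ, h⟩)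
    have hrf : l ∉ H38.MT.rf Q S (CH M ω (ε * yy D τ a)) := fun h =>
      hb ((rm_mem H D hD Q hε hc ha l).1 h)
    rw [H77.AQ.mu_ep Q hft hl hrf]
    have hl3 := so_above D hD hl
    have hw3 : ¬ Above 3 w := fun h => hl3 ((above_over hw 3).1 h)
    have hwS := so_not D hD hl hw
    have h1 : w ∉ a := fun h => hb ⟨w, h, hw⟩
    have h2 : tv τ w ∉ a := fun h => hb ⟨tv τ w, h, tv_over τ w l hw⟩
    have ho : ord w (ε * yy D τ a) = 0 := by
      rw [ord_mul, hε w hwS, nf_ord H D hD (fun v hv => (ha v hv).1) w hwS, if_neg h1, if_neg h2]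
      norm_num
    obtain ⟨π, hπ⟩ := exists_unif w
    have key : ∀ f : ℕ, nm w = nm l ^ f → lg 3 ω w (ε * yy D τ a) =
        f * Multiplicative.toAdd (CH M ω (ε * yy D τ a) (H57.SL.fr Q l)) := by
      intro f hf
      rw [← H48.CR.lc_val M H.prim Q (CH M ω (ε * yy D τ a)) (ε * yy D τ a) (fun σ => by
        rw [hχ σ]
        rfl) l hun w hw hw3 f hf π hπ]
      unfold H63.MA.B
      rw [hπ, ho, zpow_zero, inv_one, mul_one, zpow_one]
    rcases geo_f H hw with hf | hf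
    · rw [key 1 hf, Nat.cast_one, one_mul]
    · rw [key 2 hf, Nat.cast_ofNat, ep_two]

include H hD in
theorem mu_mm (Q : DP K QBar) {ε : Mˣ} (hε : TUnit D.S0 ε) (hc : ∃ y : Mˣ, ε * cj τ ε = y ^ 3)
    {a : Finset (Pl M)} (ha : a ∈ AA D τ) (l : Pl K) (hl : l ∉ S) :
    ((H67.AQ.mu Q (CH M ω (ε * yy D τ a)) l : ℝ) : ℂ) = mm D τ ε a l :=
  mu_val H D hD Q hε hc ha l hl _ (pw_over l)

end H48.M3
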