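import Pool.Agent.H48.M3.Ray

/-!
# M3: a prime of degree one over `l ∤ 3` is split

If `τ v = v` and `nm v = nm l` then `ω ≡ b` modulo `v` with `b ∈ 𝓞 K`, so `ω ^ 2 = τ ω ≡ b ≡ ω`, and `v` divides `3`.
-/

set_option autoImplicit false

open scoped NumberField Classical
open IsDedekindDomain H38.ML H63.MA

noncomputable section

namespace H48.M3

open H48.AQ

variable {K : IntermediateField ℚ QBar} [NumberField K] {M : IntermediateField K QBar}
  [NumberField M] {τ : Gal(M/K)} {ω : M}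

private theorem res {w : Pl M} {v : Pl K} (h : Over w v) (hf : nm w = nm v) (a : 𝓞 M) :
    ∃ t : 𝓞 K, a - algebraMap (𝓞 K) (𝓞 M) t ∈ w.asIdeal := by
  have hlo : w.asIdeal.LiesOver v.asIdeal := ⟨h.symm⟩
  have h1 : nm w = nm v ^ w.asIdeal.inertiaDeg (𝓞 K) :=
    (Ideal.absNorm_pow_inertiaDeg v.asIdeal w.asIdeal).symm
  have hf1 : w.asIdeal.inertiaDeg (𝓞 K) = 1 := by
    rw [hf] at h1
    have h2 := one_lt_nm v
    have h3 : nm v ^ 1 = nm v ^ w.asIdeal.inertiaDeg (𝓞 K) := by rw [pow_one]; exact h1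
    exact (Nat.pow_right_injective h2 h3).symm
  have : v.asIdeal.IsMaximal := v.isMaximal
  have : w.asIdeal.IsMaximal := w.isMaximal
  let : Field (𝓞 K ⧸ v.asIdeal) := Ideal.Quotient.field v.asIdeal
  let : Field (𝓞 M ⧸ w.asIdeal) := Ideal.Quotient.field w.asIdeal
  have hfr : Module.finrank (𝓞 K ⧸ v.asIdeal) (𝓞 M ⧸ w.asIdeal) = 1 := by
    rw [← Ideal.inertiaDeg_eq_of_isMaximal v.asIdeal w.asIdeal, hf1]
  have hsurj : Function.Surjective (algebraMap (𝓞 K ⧸ v.asIdeal) (𝓞 M ⧸ w.asIdeal)) :=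
    (Algebra.finrank_eq_one_iff_bijective_algebraMap.mp hfr).2
  obtain ⟨t', ht'⟩ := hsurj (Ideal.Quotient.mk w.asIdeal a)
  obtain ⟨t, rfl⟩ := Ideal.Quotient.mk_surjective t'
  refine ⟨t, ?_⟩
  rw [← Ideal.Quotient.eq, ← ht']
  rfl

theorem geo_spl (H : H38.WM.Om τ ω) {v : Pl M} {l : Pl K} (hl : ¬ Above 3 l) (hv : Over v l)
    (hf : nm v = nm l) : tv τ v ≠ v := by
  intro htv
  have hint : IsIntegral ℤ ω := H.prim.isIntegral (by norm_num)
  obtain ⟨w, hw⟩ : ∃ w : 𝓞 M, (w : M) = ω := ⟨⟨ω, hint⟩, rfl⟩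
  obtain ⟨t, ht⟩ := res hv hf w
  have h1 : τ • (w - algebraMap (𝓞 K) (𝓞 M) t) ∈ v.asIdeal := by
    rw [← tv_mem, htv]
    exact ht
  have h2 : τ • (w - algebraMap (𝓞 K) (𝓞 M) t) = w ^ 2 - algebraMap (𝓞 K) (𝓞 M) t := by
    apply NumberField.RingOfIntegers.ext
    show τ ((w : M) - ((algebraMap (𝓞 K) (𝓞 M) t : 𝓞 M) : M)) =
      (w : M) ^ 2 - ((algebraMap (𝓞 K) (𝓞 M) t : 𝓞 M) : M)
    have h3 : τ (((algebraMap (𝓞 K) (𝓞 M) t : 𝓞 M) : M)) =
        ((algebraMap (𝓞 K) (𝓞 M) t : 𝓞 M) : M) := τ.commutes (t : K)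
    rw [map_sub, h3, hw, H.act]
  rw [h2] at h1
  have h3 := v.asIdeal.sub_mem h1 ht
  rw [sub_sub_sub_cancel_right] at h3
  -- `w ^ 2 - w ∈ v`
  have hg : w ^ 2 + w + 1 = 0 := by
    apply NumberField.RingOfIntegers.ext
    show (w : M) ^ 2 + (w : M) + 1 = 0
    rw [hw]
    have h4 := H.prim.geom_sum_eq_zero (by norm_num)
    rw [Finset.sum_range_succ, Finset.sum_range_succ, Finset.sum_range_one, pow_zero,
      pow_one] at h4
    linear_combination h4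
  have h5 : ((3 : ℕ) : 𝓞 M) ∈ v.asIdeal := by
    have h6 : ((3 : ℕ) : 𝓞 M) = (w ^ 2 - w) * (w - w ^ 2) := by
      push_cast
      linear_combination (w ^ 2 - 3 * w + 3) * hg
    rw [h6]
    exact Ideal.mul_mem_right _ _ h3
  exact hl ((above_over hv 3).1 h5)

end H48.M3
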