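import Pool.Agent.H48.M3.Rmf

/-!
# M3: the type of `CH (ε yy a)` at `S` depends only on `ε` and `qf a`

`z = ∏_{v ∈ a} π_v / ∏_{v ∈ a'} π_v` is a cube locally at `S0` if `qf a = qf a'` (`D.prim_of`), so `kc z` is trivial on the decomposition groups of all primes of
`QBar` over `S0` (`ps_triv`), and so is `kc (τ z)`: `kk (τ z) σ = 2 kk z (s⁻¹ σ s)`, `s` an extension of `τ`.
-/

set_option autoImplicit false

open scoped NumberField Classical Pointwise
open IsDedekindDomain H38.ML H63.MA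

noncomputable section

namespace H48.M3

open H48.AQ

variable {K : IntermediateField ℚ QBar} [NumberField K] {M : IntermediateField K QBar}
  [NumberField M] {τ : Gal(M/K)} {ω : M}

private theorem p3 : Nat.Prime 3 := Nat.prime_three

private theorem cube3 (x : Multiplicative (ZMod 3)) : x = (x * x) * (x * x) := by
  have h : ∀ a : ZMod 3, a = (a + a) + (a + a) := by decide
  exact congrArg Multiplicative.ofAdd (h (Multiplicative.toAdd x))

omit [NumberField K] in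
/-- `ps_triv` for any prime over `S0` -/
theorem ty_ps (hω : IsPrimitiveRoot ω 3) (D : RD0 M 3 ω) (z : Mˣ) (hz : PS 3 ω D.S0 z)
    (P : Ideal (𝓞 QBar)) (hP : P.IsPrime) (w : Pl M) (hw : w ∈ D.S0)
    (hPw : P.under (𝓞 M) = w.asIdeal) (σ : Gal(QBar/M)) (hσ : σ ∈ dec (K := M) P) :
    kk 3 ω z σ = 0 := by
  have hcl := H48.T3.alg_cl M
  obtain ⟨Q0⟩ := exists_DP M QBar
  obtain ⟨Q', hQ'⟩ : ∃ Q' : DP M QBar, Q'.P w = P := by
    refine ⟨⟨fun v => if v = w then P else Q0.P v, fun v => ?_, fun v => ?_⟩, if_pos rfl⟩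
    · by_cases h : v = w
      · rw [if_pos h]
        exact hP
      · rw [if_neg h]
        exact Q0.prime v
    · by_cases h : v = w
      · rw [if_pos h, h]
        exact hPw
      · rw [if_neg h]
        exact Q0.under v
  refine ps_triv p3 (mone_odd p3 (by norm_num) M) hω D Q' z hz w hw σ ?_
  rw [hQ']
  exact hσ

/-- the class of `∏ π_v` for two sets with the same class -/
theorem ty_pr (D : RD0 M 3 ω) {a a' : Finset (Pl M)} (ha : ∀ v ∈ a, v ∉ D.S0)
    (ha' : ∀ v ∈ a', v ∉ D.S0) (hq : qf D a = qf D a') :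
    PS 3 ω D.S0 ((∏ v ∈ a, D.pi v) * (∏ v ∈ a', D.pi v)⁻¹) := by
  have h0 : ∀ b : Finset (Pl M), ∀ w, (if w ∈ b then (1 : ℤ) else 0) ≠ 0 → w ∈ b := by
    intro b w hw
    by_contra h
    exact hw (if_neg h)
  obtain ⟨m, hm⟩ : ∃ m : Finset (Pl M) → Pl M →₀ ℤ, ∀ b, m b = Finsupp.onFinset b
    (fun w => if w ∈ b then (1 : ℤ) else 0) (h0 b) := ⟨_, fun _ => rfl⟩
  have hv : ∀ b w, m b w = if w ∈ b then (1 : ℤ) else 0 := by
    intro b w
    rw [hm]
    rfl
  have hs : ∀ b : Finset (Pl M), ((m b).sum fun v k => (k : ZMod 3) • D.q v) = qf D b := by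
    intro b
    rw [hm, Finsupp.onFinset_sum _ (fun v => by rw [Int.cast_zero, zero_smul]), qf]
    refine Finset.sum_congr rfl fun w hw => ?_
    rw [if_pos hw, Int.cast_one, one_smul]
  have hp : ∀ b : Finset (Pl M), ((m b).prod fun v k => D.pi v ^ k) = ∏ v ∈ b, D.pi v := by
    intro b
    rw [hm, Finsupp.onFinset_prod _ (fun v => zpow_zero _)]
    refine Finset.prod_congr rfl fun w hw => ?_
    rw [if_pos hw, zpow_one]
  have h1 := D.prim_of (m a - m a') (fun v hvS => by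
    rw [Finsupp.sub_apply, hv, hv, if_neg fun h => ha v h hvS, if_neg fun h => ha' v h hvS,
      sub_zero]) (by
    rw [Finsupp.sum_sub_index (fun a b₁ b₂ => by rw [Int.cast_sub, sub_smul]), hs, hs, hq,
      sub_self])
  have h2 : ((m a - m a').prod fun v k => D.pi v ^ k) =
      (∏ v ∈ a, D.pi v) * (∏ v ∈ a', D.pi v)⁻¹ := by
    rw [eq_mul_inv_iff_mul_eq, ← hp a', ← hp a,
      ← Finsupp.prod_add_index' (fun v => zpow_zero _) (fun v b₁ b₂ => zpow_add _ _ _),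
      sub_add_cancel]
  rw [h2] at h1
  exact h1

theorem ty_eq (H : H38.WM.Om τ ω) (D : RD0 M 3 ω) {S : Finset (Pl K)} (hD : SO D S)
    (Q : DP K QBar) {ε : Mˣ} (hc : ∃ y : Mˣ, ε * cj τ ε = y ^ 3)
    {a a' : Finset (Pl M)} (ha : a ∈ AA D τ) (ha' : a' ∈ AA D τ) (hq : qf D a = qf D a') :
    Teq S Q (CH M ω (ε * yy D τ a)) (CH M ω (ε * yy D τ a')) := by
  have hcl := H48.T3.alg_cl M
  intro v hv σ hσ
  obtain ⟨w, hw, hwv⟩ := pl_M M Q v
  have hwS : w ∈ D.S0 := (hD w).2 ⟨v, hv, hwv⟩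
  obtain ⟨s, hs⟩ := H38.WM.om_lift (K := K) τ
  obtain ⟨σ', hσ'⟩ := H38.WM.om_sq τ ω H σ
  obtain ⟨z, hz⟩ : ∃ z : Mˣ, z = (∏ v ∈ a, D.pi v) * (∏ v ∈ a', D.pi v)⁻¹ := ⟨_, rfl⟩
  have hzS : PS 3 ω D.S0 z := by
    rw [hz]
    exact ty_pr D (fun v hv => (ha v hv).1) (fun v hv => (ha' v hv).1) hq
  have hdec : σ' ∈ dec (K := M) (Q.P v) := by
    intro x
    have h2 : σ' • x = (σ * σ) • x := by
      rw [← hσ']
      rfl
    rw [h2, mul_smul]
    exact (hσ (σ • x)).trans (hσ x)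
  have h1 : kk 3 ω z σ' = 0 :=
    ty_ps H.prim D z hzS (Q.P v) (Q.prime v) w hwS hw σ' hdec
  -- the conjugate
  obtain ⟨ρ, hρ⟩ := H38.WM.om_conj τ ω H s σ'
  have h2 : kk 3 ω z ρ = 0 := by
    obtain ⟨P, hP⟩ : ∃ P : Ideal (𝓞 QBar), P = s⁻¹ • Q.P v := ⟨_, rfl⟩
    have hPm : ∀ x : 𝓞 QBar, x ∈ P ↔ s • x ∈ Q.P v := by
      intro x
      rw [hP, Ideal.mem_pointwise_smul_iff_inv_smul_mem, inv_inv]
    have hPp : P.IsPrime := by
      have := Q.prime v
      rw [hP]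
      infer_instance
    have hPu : P.under (𝓞 K) = v.asIdeal := by
      rw [← Q.under v]
      ext x
      rw [Ideal.under, Ideal.mem_comap, Ideal.under, Ideal.mem_comap, hPm]
      have h3 : s • (algebraMap (𝓞 K) (𝓞 QBar) x) = algebraMap (𝓞 K) (𝓞 QBar) x := by
        apply NumberField.RingOfIntegers.ext
        exact s.commutes (x : K)
      rw [h3]
    have hover : (P.under (𝓞 M)).comap (algebraMap (𝓞 K) (𝓞 M)) = v.asIdeal := by
      rw [← hPu]
      exact Ideal.ext fun a => Iff.rfl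
    have hne : P.under (𝓞 M) ≠ ⊥ := by
      intro h
      apply v.ne_bot
      rw [← hover, h, ← RingHom.ker_eq_comap_bot]
      exact (RingHom.injective_iff_ker_eq_bot _).mp
        (NumberField.RingOfIntegers.algebraMap.injective K M)
    obtain ⟨w', hw'⟩ : ∃ w' : Pl M, P.under (𝓞 M) = w'.asIdeal :=
      ⟨⟨P.under (𝓞 M), Ideal.IsPrime.comap _, hne⟩, rfl⟩
    have hw'v : Over w' v := by
      unfold Over
      rw [← hw']
      exact hover
    refine ty_ps H.prim D z hzS P hPp w' ((hD w').2 ⟨v, hv, hw'v⟩) hw' ρ ?_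
    intro x
    have h3 : ρ • x = (s⁻¹ * σ'.restrictScalars K * s) • x := by
      rw [← hρ]
      rfl
    rw [hPm, hPm, h3, mul_smul, mul_smul, smul_inv_smul]
    exact hdec (s • x)
  have h3 : kk 3 ω (cj τ z) σ' = 0 := by
    rw [kk_cj H s hs σ' ρ hρ z, h2, mul_zero]
  have h4 : kk 3 ω (ε * yy D τ a) σ' = kk 3 ω (ε * yy D τ a') σ' := by
    have h5 : ε * yy D τ a = (ε * yy D τ a') * (z * (cj τ z) ^ (-1 : ℤ)) := by
      rw [yy_eq, yy_eq, hz, map_mul, map_inv, zpow_neg_one, mul_inv, inv_inv]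
      generalize (∏ v ∈ a, D.pi v) = A
      generalize (∏ v ∈ a', D.pi v) = A'
      have h6 : ε * (A' * (cj τ A')⁻¹) * (A * A'⁻¹ * ((cj τ A)⁻¹ * cj τ A')) =
          ε * (A * (cj τ A)⁻¹) * (A' * A'⁻¹) * ((cj τ A')⁻¹ * cj τ A') := by
        simp only [mul_assoc, mul_left_comm, mul_comm]
      rw [h6, mul_inv_cancel, inv_mul_cancel, mul_one, mul_one]
    rw [h5, kk_mul_arg p3 H.prim, kk_mul_arg p3 H.prim z, kk_zpow_arg p3 H.prim, h1, h3, mul_zero,
      add_zero, add_zero]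
  have h5 : ∀ b ∈ AA D τ, CH M ω (ε * yy D τ b) σ * CH M ω (ε * yy D τ b) σ =
      kc 3 ω QBar (ε * yy D τ b) σ' := by
    intro b _
    rw [← (ch_sp H (ε * yy D τ b) (cu_mul H D hc b)).2, hσ', map_mul]
  have h6 : kc 3 ω QBar (ε * yy D τ a) σ' = kc 3 ω QBar (ε * yy D τ a') σ' :=
    Multiplicative.toAdd.injective h4
  rw [cube3 (CH M ω (ε * yy D τ a) σ), cube3 (CH M ω (ε * yy D τ a') σ), h5 a ha, h5 a' ha', h6]

end H48.M3
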